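import Pool.Agent.TDLC.Defs

open Topology Filter Set
open scoped Pointwise

namespace Pool.TDLC

universe u v

section Conj

variable {G : Type u} [Group G]

/-- conjugation by `g ^ n` -/
def cj (g : G) (n : ℤ) (x : G) : G := g ^ n * x * (g ^ n)⁻¹

theorem cj_cj (g : G) (m n : ℤ) (x : G) : cj g m (cj g n x) = cj g (m + n) x := by
  simp only [cj, zpow_add, mul_inv_rev]
  group

theorem cj_zero (g : G) (x : G) : cj g 0 x = x := by simp [cj]

theorem cj_mul (g : G) (n : ℤ) (x y : G) : cj g n (x * y) = cj g n x * cj g n y := by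
  simp only [cj]; group

theorem cj_inv (g : G) (n : ℤ) (x : G) : cj g n x⁻¹ = (cj g n x)⁻¹ := by
  simp only [cj]; group

theorem cj_one (g : G) (n : ℤ) : cj g n 1 = 1 := by simp [cj]

theorem cj_neg_cj (g : G) (n : ℤ) (x : G) : cj g (-n) (cj g n x) = x := by
  rw [cj_cj, neg_add_cancel, cj_zero]

theorem cj_cj_neg (g : G) (n : ℤ) (x : G) : cj g n (cj g (-n) x) = x := by
  rw [cj_cj, add_neg_cancel, cj_zero]

theorem cj_eq_one {g : G} {n : ℤ} {x : G} (h : cj g n x = 1) : x = 1 := by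
  rw [← cj_neg_cj g n x, h, cj_one]

theorem cj_ginv (g : G) (n : ℤ) (x : G) : cj g⁻¹ n x = cj g (-n) x := by
  simp [cj]

theorem mem_conjSet {g : G} {n : ℤ} {S : Set G} {x : G} :
    x ∈ conjSet g n S ↔ cj g (-n) x ∈ S := by
  constructor
  · rintro ⟨y, hy, rfl⟩
    have : cj g (-n) (cj g n y) = y := cj_neg_cj g n y
    simpa [cj] using (show cj g (-n) (cj g n y) ∈ S by rw [this]; exact hy)
  · intro h
    exact ⟨cj g (-n) x, h, cj_cj_neg g n x⟩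

theorem mem_plus {g : G} {U : Subgroup G} {x : G} :
    x ∈ plus g U ↔ ∀ n : ℕ, cj g (-(n : ℤ)) x ∈ U := by
  simp only [plus, mem_iInter, mem_conjSet, SetLike.mem_coe]

theorem mem_minus {g : G} {U : Subgroup G} {x : G} :
    x ∈ minus g U ↔ ∀ n : ℕ, cj g (n : ℤ) x ∈ U := by
  simp only [minus, mem_iInter, mem_conjSet, SetLike.mem_coe, neg_neg]

variable [TopologicalSpace G]

theorem mem_con {g : G} {x : G} :
    x ∈ con g ↔ Tendsto (fun n : ℕ => cj g (n : ℤ) x) atTop (𝓝 1) := by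
  simp only [con, mem_ofPred_eq, cj, zpow_natCast]

variable [IsTopologicalGroup G]

theorem continuous_cj (g : G) (n : ℤ) : Continuous (cj g n) := by
  unfold cj
  fun_prop

/-- The contraction group as a subgroup. -/
def conS (g : G) : Subgroup G where
  carrier := con g
  mul_mem' := by
    intro a b ha hb
    rw [mem_con] at *
    have := ha.mul hb
    simpa only [← cj_mul, one_mul] using this
  one_mem' := by
    rw [mem_con]
    simp only [cj_one]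
    exact tendsto_const_nhds
  inv_mem' := by
    intro a ha
    rw [mem_con] at *
    have := ha.inv
    simpa only [← cj_inv, inv_one] using this

theorem mem_conS {g x : G} : x ∈ conS g ↔ x ∈ con g := Iff.rfl

theorem con_cj {g x : G} (hx : x ∈ con g) (k : ℤ) : cj g k x ∈ con g := by
  rw [mem_con] at *
  have h1 : Tendsto (fun n : ℕ => cj g k (cj g (n : ℤ) x)) atTop (𝓝 (cj g k 1)) :=
    ((continuous_cj g k).tendsto 1).comp hx
  rw [cj_one] at h1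
  refine h1.congr fun n => ?_
  rw [cj_cj, cj_cj, add_comm]

end Conj

section Action

variable {G : Type u} [Group G] {A : Type v} [BooleanAlgebra A] (ρ : G →* (A ≃o A))

theorem rho_mul (a b : G) (β : A) : ρ (a * b) β = ρ a (ρ b β) := by rw [map_mul]; rfl

theorem rho_one (β : A) : ρ 1 β = β := by rw [map_one]; rfl

theorem rho_inv_rho (a : G) (β : A) : ρ a⁻¹ (ρ a β) = β := by
  rw [← rho_mul, inv_mul_cancel, rho_one]

theorem rho_rho_inv (a : G) (β : A) : ρ a (ρ a⁻¹ β) = β := by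
  rw [← rho_mul, mul_inv_cancel, rho_one]

theorem rho_inf (a : G) (β γ : A) : ρ a (β ⊓ γ) = ρ a β ⊓ ρ a γ := map_inf (ρ a) β γ
theorem rho_sup (a : G) (β γ : A) : ρ a (β ⊔ γ) = ρ a β ⊔ ρ a γ := map_sup (ρ a) β γ
theorem rho_bot (a : G) : ρ a ⊥ = ⊥ := map_bot (ρ a)
theorem rho_top (a : G) : ρ a ⊤ = ⊤ := map_top (ρ a)

theorem rho_compl (a : G) (β : A) : ρ a βᶜ = (ρ a β)ᶜ := by
  refine (IsCompl.compl_eq ?_).symm
  refine IsCompl.of_eq ?_ ?_
  · rw [← rho_inf, inf_compl_self, rho_bot]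
  · rw [← rho_sup, sup_compl_eq_top, rho_top]

theorem rho_mono (a : G) {β γ : A} (h : β ≤ γ) : ρ a β ≤ ρ a γ := (ρ a).monotone h

theorem rho_ne_bot (a : G) {β : A} (h : β ≠ ⊥) : ρ a β ≠ ⊥ := by
  intro h'
  apply h
  rw [← rho_inv_rho ρ a β, h', rho_bot]

theorem mem_rist {h : G} {α : A} : h ∈ rist ρ α ↔ ∀ β : A, α ⊓ β = ⊥ → ρ h β = β := Iff.rfl

/-- `y` displaces `δ` -/
def Disp (y : G) (δ : A) : Prop := δ ≠ ⊥ ∧ ρ y δ ⊓ δ = ⊥

theorem exists_disp (hf : Function.Injective ρ) {y : G} (hy : y ≠ 1) : ∃ δ, Disp ρ y δ := by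
  have : ∃ γ, ρ y γ ≠ γ := by
    by_contra hcon
    push Not at hcon
    apply hy
    apply hf
    rw [map_one]
    ext γ
    exact hcon γ
  obtain ⟨γ, hγ⟩ := this
  by_cases h : γ ≤ ρ y⁻¹ γ
  · -- then `ρ y γ ≤ γ`
    have h1 : ρ y γ ≤ γ := by
      have := rho_mono ρ y h
      rwa [rho_rho_inv] at this
    refine ⟨γ \ ρ y γ, ?_, ?_⟩
    · intro h0
      rw [sdiff_eq_bot_iff] at h0
      exact hγ (le_antisymm h1 h0)
    · rw [_root_.sdiff_eq, rho_inf, rho_compl]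
      have h2 : ρ y γ ⊓ (ρ y (ρ y γ))ᶜ ⊓ (γ ⊓ (ρ y γ)ᶜ) ≤ ρ y γ ⊓ (ρ y γ)ᶜ :=
        inf_le_inf inf_le_left inf_le_right
      rw [inf_compl_self] at h2
      exact le_bot_iff.mp h2
  · refine ⟨γ \ ρ y⁻¹ γ, ?_, ?_⟩
    · intro h0
      rw [sdiff_eq_bot_iff] at h0
      exact h h0
    · rw [_root_.sdiff_eq, rho_inf, rho_compl, rho_rho_inv]
      have h2 : ρ y γ ⊓ γᶜ ⊓ (γ ⊓ (ρ y⁻¹ γ)ᶜ) ≤ γᶜ ⊓ γ :=
        inf_le_inf inf_le_right inf_le_left
      rw [compl_inf_self] at h2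
      exact le_bot_iff.mp h2

theorem disp_le {y : G} {β δ : A} (hy : y ∈ rist ρ β) (hd : Disp ρ y δ) : δ ≤ β := by
  rw [← sdiff_eq_bot_iff]
  have h1 : β ⊓ (δ \ β) = ⊥ := inf_sdiff_self_right
  have h2 := hy _ h1
  have h3 : δ \ β ≤ ρ y δ := by
    rw [← h2]
    exact rho_mono ρ y sdiff_le
  have h4 : δ \ β ≤ ρ y δ ⊓ δ := le_inf h3 sdiff_le
  rw [hd.2] at h4
  exact le_bot_iff.mp h4

theorem rist_fix_le {y : G} {β γ : A} (hy : y ∈ rist ρ β) (h : γ ≤ βᶜ) : ρ y γ = γ := by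
  apply hy
  have : β ⊓ γ ≤ β ⊓ βᶜ := inf_le_inf le_rfl h
  rw [inf_compl_self] at this
  exact le_bot_iff.mp this

theorem rist_fix {y : G} {β : A} (hy : y ∈ rist ρ β) : ρ y β = β := by
  have h := rist_fix_le ρ hy (le_refl βᶜ)
  rw [rho_compl] at h
  exact compl_injective h

theorem rist_mono {β γ : A} (h : β ≤ γ) : rist ρ β ≤ rist ρ γ := by
  intro y hy δ hδ
  apply hy
  have : β ⊓ δ ≤ γ ⊓ δ := inf_le_inf h le_rfl
  rw [hδ] at this
  exact le_bot_iff.mp this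

theorem decomp (α β : A) : α = (α ⊓ β) ⊔ (α ⊓ βᶜ) := by
  rw [← inf_sup_left, sup_compl_eq_top, inf_top_eq]

theorem rist_inter (hf : Function.Injective ρ) {β γ : A} (h : β ⊓ γ = ⊥) {y : G}
    (hy : y ∈ rist ρ β) (hy' : y ∈ rist ρ γ) : y = 1 := by
  by_contra hne
  obtain ⟨δ, hδ⟩ := exists_disp ρ hf hne
  have h1 := disp_le ρ hy hδ
  have h2 := disp_le ρ hy' hδ
  have : δ ≤ β ⊓ γ := le_inf h1 h2
  rw [h] at this
  exact hδ.1 (le_bot_iff.mp this)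

theorem rist_comm (hf : Function.Injective ρ) {β γ : A} (h : β ⊓ γ = ⊥) {y z : G}
    (hy : y ∈ rist ρ β) (hz : z ∈ rist ρ γ) : y * z = z * y := by
  apply hf
  ext α
  show ρ (y * z) α = ρ (z * y) α
  rw [rho_mul, rho_mul]
  have hγ : γ ≤ βᶜ := by
    rw [le_compl_iff_disjoint_left, disjoint_iff, h]
  have hβ : β ≤ γᶜ := by
    rw [le_compl_iff_disjoint_left, disjoint_iff, inf_comm, h]
  -- split `α` into three parts
  have e : α = (α ⊓ β) ⊔ ((α ⊓ γ) ⊔ (α ⊓ (βᶜ ⊓ γᶜ))) := by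
    rw [← inf_sup_left, ← inf_sup_left]
    have : β ⊔ (γ ⊔ βᶜ ⊓ γᶜ) = ⊤ := by
      rw [← compl_sup, ← sup_assoc, sup_compl_eq_top]
    rw [this, inf_top_eq]
  have hz1 : ρ z (α ⊓ β) = α ⊓ β := rist_fix_le ρ hz (inf_le_right.trans hβ)
  have hy1 : ρ y (α ⊓ γ) = α ⊓ γ := rist_fix_le ρ hy (inf_le_right.trans hγ)
  have hz2 : ρ z (α ⊓ (βᶜ ⊓ γᶜ)) = α ⊓ (βᶜ ⊓ γᶜ) :=
    rist_fix_le ρ hz (inf_le_right.trans inf_le_right)
  have hy2 : ρ y (α ⊓ (βᶜ ⊓ γᶜ)) = α ⊓ (βᶜ ⊓ γᶜ) :=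
    rist_fix_le ρ hy (inf_le_right.trans inf_le_left)
  have hz3 : ρ y (ρ z (α ⊓ γ)) = ρ z (α ⊓ γ) := by
    apply rist_fix_le ρ hy
    have : ρ z (α ⊓ γ) ≤ ρ z γ := rho_mono ρ z inf_le_right
    rw [rist_fix ρ hz] at this
    exact this.trans hγ
  have hy3 : ρ z (ρ y (α ⊓ β)) = ρ y (α ⊓ β) := by
    apply rist_fix_le ρ hz
    have : ρ y (α ⊓ β) ≤ ρ y β := rho_mono ρ y inf_le_right
    rw [rist_fix ρ hy] at this
    exact this.trans hβ
  rw [e]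
  simp only [rho_sup, hz1, hy1, hz2, hy2, hz3, hy3]

theorem rist_conj {z y : G} {β : A} (hy : y ∈ rist ρ β) : z * y * z⁻¹ ∈ rist ρ (ρ z β) := by
  intro γ hγ
  rw [rho_mul, rho_mul]
  have h1 : β ⊓ ρ z⁻¹ γ = ⊥ := by
    have := congrArg (ρ z⁻¹) hγ
    rwa [rho_inf, rho_inv_rho, rho_bot] at this
  rw [hy _ h1, rho_rho_inv]

theorem rist_cj {g y : G} {n : ℤ} {β : A} (hy : y ∈ rist ρ β) :
    cj g n y ∈ rist ρ (ρ (g ^ n) β) := rist_conj ρ hy

theorem disp_conj {z y : G} {β : A} (hy : Disp ρ y β) : Disp ρ (z * y * z⁻¹) (ρ z β) := by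
  refine ⟨rho_ne_bot ρ z hy.1, ?_⟩
  rw [rho_mul, rho_mul, rho_inv_rho, ← rho_inf, hy.2, rho_bot]

theorem disp_inv {y : G} {β : A} (hy : Disp ρ y β) : Disp ρ y⁻¹ β := by
  refine ⟨hy.1, ?_⟩
  have := congrArg (ρ y⁻¹) hy.2
  rw [rho_inf, rho_inv_rho, rho_bot] at this
  rw [inf_comm]; exact this

theorem disp_mono {y : G} {β γ : A} (hy : Disp ρ y β) (h : γ ≤ β) (h0 : γ ≠ ⊥) :
    Disp ρ y γ := by
  refine ⟨h0, ?_⟩
  have : ρ y γ ⊓ γ ≤ ρ y β ⊓ β := inf_le_inf (rho_mono ρ y h) h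
  rw [hy.2] at this
  exact le_bot_iff.mp this

end Action

end Pool.TDLC
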