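import Mathlib

/-!
Definitions for totally disconnected locally compact groups acting on Boolean algebras:
contraction groups, tidy subgroups, the nub, and (non-degenerate faithful) weakly
decomposable actions on Boolean algebras.
-/

open Topology Filter Set
open scoped Pointwise

namespace Pool.TDLC

universe u v

/-- The contraction group `con(g)`, as a set: all `x` with `g ^ n * x * g ^ (-n) → 1`. -/
def con {G : Type u} [Group G] [TopologicalSpace G] (g : G) : Set G :=
  {x | Tendsto (fun n : ℕ => g ^ n * x * (g ^ n)⁻¹) atTop (𝓝 1)}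

/-- The conjugate `g ^ n * S * g ^ (-n)` of a set `S`, for an integer `n`. -/
def conjSet {G : Type u} [Group G] (g : G) (n : ℤ) (S : Set G) : Set G :=
  (fun x => g ^ n * x * (g ^ n)⁻¹) '' S

/-- `U_+`, the intersection of all `g ^ n * U * g ^ (-n)` for `n ≥ 0`. -/
def plus {G : Type u} [Group G] (g : G) (U : Subgroup G) : Set G :=
  ⋂ n : ℕ, conjSet g n (U : Set G)

/-- `U_-`, the intersection of all `g ^ (-n) * U * g ^ n` for `n ≥ 0`. -/
def minus {G : Type u} [Group G] (g : G) (U : Subgroup G) : Set G :=
  ⋂ n : ℕ, conjSet g (-(n : ℤ)) (U : Set G)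

/-- `U` is a compact open subgroup that is tidy for `g`: `U = U_+ U_-` and the union of the
`g ^ n * U_+ * g ^ (-n)`, `n ≥ 0`, is closed. -/
structure IsTidy {G : Type u} [Group G] [TopologicalSpace G] (g : G) (U : Subgroup G) :
    Prop where
  isCompact : IsCompact (U : Set G)
  isOpen : IsOpen (U : Set G)
  factor : (U : Set G) = plus g U * minus g U
  closed : IsClosed (⋃ n : ℕ, conjSet g n (plus g U))

/-- The nub of `g`: the intersection of all compact open subgroups that are tidy for `g`. -/
def nub {G : Type u} [Group G] [TopologicalSpace G] (g : G) : Set G :=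
  {x | ∀ U : Subgroup G, IsTidy g U → x ∈ U}

/-- For an action `ρ` of `G` by automorphisms on the Boolean algebra `A` and `α` in `A`, the
pointwise stabilizer in `G` of the set of all `β` with `α ⊓ β = ⊥`. -/
def rist {G : Type u} [Group G] {A : Type v} [BooleanAlgebra A] (ρ : G →* (A ≃o A)) (α : A) :
    Subgroup G where
  carrier := {h | ∀ β : A, α ⊓ β = ⊥ → ρ h β = β}
  mul_mem' := by
    intro a b ha hb β hβ
    have h1 : ρ (a * b) β = ρ a (ρ b β) := by rw [map_mul]; rfl
    rw [h1, hb β hβ, ha β hβ]
  one_mem' := by
    intro β _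
    rw [map_one]; rfl
  inv_mem' := by
    intro a ha β hβ
    have h1 : ρ a⁻¹ (ρ a β) = β := by
      have : ρ (a⁻¹ * a) β = ρ a⁻¹ (ρ a β) := by rw [map_mul]; rfl
      rw [← this, inv_mul_cancel, map_one]; rfl
    have h2 := ha β hβ
    rw [h2] at h1
    exact h1

/-- The action `ρ` of the topological group `G` by automorphisms on the Boolean algebra `A` is
non-degenerate faithful weakly decomposable: it is faithful and, for every `α ≠ ⊥`, the
stabilizer of `α` is open and the pointwise stabilizer of `{β | α ⊓ β = ⊥}` is not discrete. -/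
structure WeaklyDecomposable {G : Type u} [Group G] [TopologicalSpace G] {A : Type v}
    [BooleanAlgebra A] (ρ : G →* (A ≃o A)) : Prop where
  faithful : Function.Injective ρ
  isOpen_stabilizer : ∀ α : A, α ≠ ⊥ → IsOpen {h : G | ρ h α = α}
  not_discrete : ∀ α : A, α ≠ ⊥ → ¬ DiscreteTopology (rist ρ α)

end Pool.TDLC
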