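import Pool.Agent.TDLC.Main

open Topology Filter Set
open scoped Pointwise

namespace Pool.TDLC

universe u v

section Limit

variable {G : Type u} [Group G] [TopologicalSpace G] [IsTopologicalGroup G]

/-- The limit of a sequence of subgroups along a nonprincipal ultrafilter. -/
def limS (H : ℕ → Subgroup G) : Subgroup G where
  carrier := {y | ∃ f : ℕ → G, (∀ᶠ n in (hyperfilter ℕ : Filter ℕ), f n ∈ H n) ∧
    Tendsto f (hyperfilter ℕ) (𝓝 y)}
  mul_mem' := by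
    rintro a b ⟨f, hf, hfa⟩ ⟨f', hf', hfb⟩
    refine ⟨fun n => f n * f' n, ?_, hfa.mul hfb⟩
    filter_upwards [hf, hf'] with n h1 h2
    exact (H n).mul_mem h1 h2
  one_mem' := ⟨fun _ => 1, Filter.Eventually.of_forall fun n => (H n).one_mem,
    tendsto_const_nhds⟩
  inv_mem' := by
    rintro a ⟨f, hf, hfa⟩
    refine ⟨fun n => (f n)⁻¹, ?_, hfa.inv⟩
    filter_upwards [hf] with n h1
    exact (H n).inv_mem h1

theorem mem_limS {H : ℕ → Subgroup G} {y : G} : y ∈ limS H ↔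
    ∃ f : ℕ → G, (∀ᶠ n in (hyperfilter ℕ : Filter ℕ), f n ∈ H n) ∧
      Tendsto f (hyperfilter ℕ) (𝓝 y) := Iff.rfl

theorem hyper_ge (N : ℕ) : ∀ᶠ n in (hyperfilter ℕ : Filter ℕ), N ≤ n := by
  have : (hyperfilter ℕ : Filter ℕ) ≤ atTop := by
    rw [← Nat.cofinite_eq_atTop]
    exact hyperfilter_le_cofinite
  exact this (eventually_ge_atTop N)

theorem exists_lim {K : Set G} (hK : IsCompact K) {y : ℕ → G} (hy : ∀ n, y n ∈ K) :
    ∃ z ∈ K, Tendsto y (hyperfilter ℕ) (𝓝 z) := by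
  have hle : (Ultrafilter.map y (hyperfilter ℕ) : Filter G) ≤ 𝓟 K := by
    rw [le_principal_iff, Ultrafilter.coe_map, Filter.mem_map]
    exact Filter.univ_mem' hy
  obtain ⟨z, hzK, hz⟩ := hK.ultrafilter_le_nhds _ hle
  exact ⟨z, hzK, hz⟩

end Limit

variable {G : Type u} [Group G] [TopologicalSpace G] [IsTopologicalGroup G]
  {A : Type v} [BooleanAlgebra A] [LocallyCompactSpace G] [T2Space G]
  [TotallyDisconnectedSpace G]

theorem limS_le_con {ρ : G →* (A ≃o A)} {g : G} (hC : IsClosed (con g)) {β : ℕ → A} :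
    ∀ x ∈ limS (fun n => cb ρ g (β n)), x ∈ con g := by
  rintro x ⟨f, hf, hfx⟩
  refine hC.mem_of_tendsto hfx ?_
  filter_upwards [hf] with n hn
  exact hn.2

theorem limS_norm {ρ : G →* (A ≃o A)} {g : G} {W : ℤ → Subgroup G} (hW : Scale ρ g W)
    {β : ℕ → A} (hst : ∀ n : ℕ, W (-(n : ℤ)) ≤ stabS ρ (β n)) :
    ∀ c ∈ con g, ∀ y ∈ limS (fun n => cb ρ g (β n)),
      c * y * c⁻¹ ∈ limS (fun n => cb ρ g (β n)) := by
  rintro c hc y ⟨f, hf, hfy⟩
  refine ⟨fun n => c * f n * c⁻¹, ?_, (tendsto_const_nhds.mul hfy).mul tendsto_const_nhds⟩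
  obtain ⟨k, hk⟩ := hW.union c hc
  filter_upwards [hf, hyper_ge k.natAbs] with n hn1 hn2
  have h1 : c ∈ W (-(n : ℤ)) := hW.anti (-(n : ℤ)) k (by omega) hk
  have h2 : ρ c (β n) = β n := hst n h1
  refine ⟨?_, (conS g).mul_mem ((conS g).mul_mem hc hn1.2) ((conS g).inv_mem hc)⟩
  have := rist_conj ρ (z := c) hn1.1
  rwa [h2] at this

theorem W_open_in {ρ : G →* (A ≃o A)} {g : G} {W : ℤ → Subgroup G} (hW : Scale ρ g W)
    {f : ℕ → G} (hf : ∀ᶠ n in (hyperfilter ℕ : Filter ℕ), f n ∈ con g) {u : G} {k : ℤ}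
    (hu : u ∈ W k) (hfu : Tendsto f (hyperfilter ℕ) (𝓝 u)) :
    ∀ᶠ n in (hyperfilter ℕ : Filter ℕ), f n ∈ W k := by
  obtain ⟨V, hV, hVW⟩ := hW.nhds k
  have h1 : Tendsto (fun n => u⁻¹ * f n) (hyperfilter ℕ) (𝓝 (u⁻¹ * u)) :=
    tendsto_const_nhds.mul hfu
  rw [inv_mul_cancel] at h1
  filter_upwards [h1 hV, hf] with n h2 h3
  have h4 : u⁻¹ * f n ∈ con g :=
    (conS g).mul_mem ((conS g).inv_mem (hW.le_con k u hu)) h3
  exact ((W k).mul_mem_cancel_left ((W k).inv_mem hu)).1 (hVW _ h2 h4)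

theorem W_diff_compact {ρ : G →* (A ≃o A)} {g : G} {W : ℤ → Subgroup G} (hW : Scale ρ g W)
    (k l : ℤ) : IsCompact ((W k : Set G) \ W l) := by
  -- `W l` is relatively open in `con g`
  obtain ⟨V, hV, hVW⟩ := hW.nhds l
  obtain ⟨O, hOV, hO, h1O⟩ := mem_nhds_iff.1 hV
  have hO' : IsOpen ((W l : Set G) * O) := hO.mul_left
  have e : (W k : Set G) \ W l = (W k : Set G) \ ((W l : Set G) * O) := by
    ext x
    constructor
    · rintro ⟨h1, h2⟩
      refine ⟨h1, ?_⟩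
      intro h3
      obtain ⟨a, ha, b, hb, hab⟩ := Set.mem_mul.1 h3
      apply h2
      have hb' : b = a⁻¹ * x := by rw [← hab]; group
      have hbc : b ∈ con g := by
        rw [hb']
        exact (conS g).mul_mem ((conS g).inv_mem (hW.le_con l a ha)) (hW.le_con k x h1)
      rw [← hab]
      exact (W l).mul_mem ha (hVW b (hOV hb) hbc)
    · rintro ⟨h1, h2⟩
      exact ⟨h1, fun h3 => h2 (Set.mem_mul.2 ⟨x, h3, 1, h1O, mul_one x⟩)⟩
  rw [e]
  exact (hW.compact k).diff hO'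

theorem lim_all {ρ : G →* (A ≃o A)} {g : G} {W : ℤ → Subgroup G} (hW : Scale ρ g W)
    {f : ℕ → G} {u : G} (hfu : Tendsto f (hyperfilter ℕ) (𝓝 u))
    (hf : ∀ᶠ n : ℕ in (hyperfilter ℕ : Filter ℕ), f n ∈ W (n : ℤ)) : u = 1 := by
  apply hW.inter
  intro k
  have hcl : IsClosed (W k : Set G) := (hW.compact k).isClosed
  refine hcl.mem_of_tendsto hfu ?_
  filter_upwards [hf, hyper_ge k.natAbs] with n h1 h2
  exact hW.anti k n (by omega) h1

/-- uniform bound for gaps -/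
theorem gap_bound {ρ : G →* (A ≃o A)} (h : WeaklyDecomposable ρ) {g : G}
    (hC : IsClosed (con g)) {W : ℤ → Subgroup G} (hW : Scale ρ g W) :
    ∃ s : ℕ, ∀ β ∈ E ρ g, W (-(s : ℤ)) ≤ stabS ρ β →
      (∃ y ∈ cb ρ g β, y ∈ W 0 ∧ y ∉ W 1) →
      ∃ y ∈ cb ρ g β, y ∈ W 1 ∧ y ∉ W (s + 1) := by
  by_contra hcon
  push Not at hcon
  choose β hβ hst hy hgap using hcon
  choose y hyc hy0 hy1 using hy
  obtain ⟨z, hz, hyz⟩ := exists_lim (W_diff_compact hW 0 1) (y := y)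
    (fun n => ⟨hy0 n, hy1 n⟩)
  have hzN : z ∈ limS (fun n => cb ρ g (β n)) := ⟨y, Filter.Eventually.of_forall hyc, hyz⟩
  have hz1 : z ≠ 1 := by
    intro e
    apply hz.2
    rw [e]
    exact (W 1).one_mem
  obtain ⟨V, hV, hVW⟩ := hW.nhds 1
  obtain ⟨u, huN, huV, hu1⟩ := normal_big h (limS_le_con hC) (limS_norm hW hst) hzN hz1 hV
  have huc : u ∈ con g := limS_le_con hC u huN
  have huW : u ∈ W 1 := hVW u huV huc
  obtain ⟨f, hf, hfu⟩ := huN
  have hfc : ∀ᶠ n in (hyperfilter ℕ : Filter ℕ), f n ∈ con g := by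
    filter_upwards [hf] with n hn
    exact hn.2
  have hf1 := W_open_in hW hfc huW hfu
  apply hu1
  apply lim_all hW hfu
  filter_upwards [hf, hf1] with n h1 h2
  have := hgap n (f n) h1 h2
  exact hW.anti n (n + 1) (by omega) this

/-- uniform bound for central elements -/
theorem cent_bound {ρ : G →* (A ≃o A)} (h : WeaklyDecomposable ρ) {g : G}
    (hC : IsClosed (con g)) {W : ℤ → Subgroup G} (hW : Scale ρ g W) :
    ∃ s : ℕ, ∀ β ∈ E ρ g, W (-(s : ℤ)) ≤ stabS ρ β →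
      ∀ y ∈ cb ρ g β, y ∈ W 0 → y ∉ W 1 → ∀ z ∈ con g, (∀ u ∈ cb ρ g β, z * u = u * z) →
        z⁻¹ * y ∉ W s := by
  by_contra hcon
  push Not at hcon
  choose β hβ hst y hyc hy0 hy1 z hzc hzz hzy using hcon
  obtain ⟨x, hx, hyx⟩ := exists_lim (W_diff_compact hW 0 1) (y := y)
    (fun n => ⟨hy0 n, hy1 n⟩)
  have hxN : x ∈ limS (fun n => cb ρ g (β n)) := ⟨y, Filter.Eventually.of_forall hyc, hyx⟩
  have hx1 : x ≠ 1 := by
    intro e
    apply hx.2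
    rw [e]
    exact (W 1).one_mem
  obtain ⟨w, hw, hzw⟩ := exists_lim (hW.compact 0) (y := fun n => (z n)⁻¹ * y n)
    (fun n => hW.anti 0 n (by omega) (hzy n))
  have hw1 : w = 1 := lim_all hW hzw (Filter.Eventually.of_forall hzy)
  rw [hw1] at hzw
  have hzx : Tendsto z (hyperfilter ℕ) (𝓝 x) := by
    have h1 : Tendsto (fun n => y n * ((z n)⁻¹ * y n)⁻¹) (hyperfilter ℕ) (𝓝 (x * 1⁻¹)) :=
      hyx.mul hzw.inv
    rw [inv_one, mul_one] at h1
    refine h1.congr fun n => ?_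
    group
  have hcommx : ∀ u ∈ limS (fun n => cb ρ g (β n)), x * u = u * x := by
    rintro u ⟨f, hf, hfu⟩
    have h1 : Tendsto (fun n => z n * f n) (hyperfilter ℕ) (𝓝 (x * u)) := hzx.mul hfu
    have h2 : Tendsto (fun n => f n * z n) (hyperfilter ℕ) (𝓝 (u * x)) := hfu.mul hzx
    refine tendsto_nhds_unique h1 (h2.congr' ?_)
    filter_upwards [hf] with n hn
    exact (hzz n _ hn).symm
  -- the centre of the limit
  let Z : Subgroup G :=
    { carrier := {t | t ∈ limS (fun n => cb ρ g (β n)) ∧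
        ∀ u ∈ limS (fun n => cb ρ g (β n)), t * u = u * t}
      mul_mem' := by
        rintro a b ⟨ha, ha'⟩ ⟨hb, hb'⟩
        refine ⟨Subgroup.mul_mem _ ha hb, ?_⟩
        intro u hu
        rw [mul_assoc, hb' u hu, ← mul_assoc, ha' u hu, mul_assoc]
      one_mem' := ⟨Subgroup.one_mem _, fun u _ => by rw [one_mul, mul_one]⟩
      inv_mem' := by
        rintro a ⟨ha, ha'⟩
        refine ⟨Subgroup.inv_mem _ ha, ?_⟩
        intro u hu
        rw [inv_mul_eq_iff_eq_mul, ← mul_assoc, ha' u hu, mul_assoc, mul_inv_cancel,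
          mul_one] }
  have hZc : ∀ t ∈ Z, t ∈ con g := fun t ht => limS_le_con hC t ht.1
  have hZn : ∀ c ∈ con g, ∀ t ∈ Z, c * t * c⁻¹ ∈ Z := by
    rintro c hc t ⟨ht, ht'⟩
    refine ⟨limS_norm hW hst c hc t ht, ?_⟩
    intro u hu
    have hci : c⁻¹ ∈ con g := (conS g).inv_mem hc
    have h1 := limS_norm hW hst c⁻¹ hci u hu
    rw [inv_inv] at h1
    have h2 := ht' _ h1
    calc c * t * c⁻¹ * u = c * (t * (c⁻¹ * u * c)) * c⁻¹ := by group
      _ = c * (c⁻¹ * u * c * t) * c⁻¹ := by rw [h2]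
      _ = u * (c * t * c⁻¹) := by group
  have hxZ : x ∈ Z := ⟨hxN, hcommx⟩
  obtain ⟨a, ha, b, hb, hab⟩ := normal_nonabelian h hZc hZn hxZ hx1
  exact hab (ha.2 b hb.1)

theorem stab_shift {ρ : G →* (A ≃o A)} {g : G} {W : ℤ → Subgroup G} (hW : Scale ρ g W)
    {β : A} {κ : ℤ} (hκ : W κ ≤ stabS ρ β) {k : ℤ} {s : ℕ} (hk : κ + s ≤ k) :
    W (-(s : ℤ)) ≤ stabS ρ (ρ (g ^ (-k)) β) := by
  intro c hc
  have h1 : cj g k c ∈ W (-(s : ℤ) + k) := (hW.shift _ k c).1 hc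
  have h2 : cj g k c ∈ W κ := hW.anti κ _ (by omega) h1
  have h3 : ρ (cj g k c) β = β := hκ h2
  rw [mem_stabS]
  have e : c * g ^ (-k) = g ^ (-k) * cj g k c := by
    simp only [cj, zpow_neg]; group
  rw [← rho_mul, e, rho_mul, h3]

theorem cb_shift {ρ : G →* (A ≃o A)} {g : G} {β : A} {y : G} (hy : y ∈ cb ρ g β) (k : ℤ) :
    cj g k y ∈ cb ρ g (ρ (g ^ k) β) := ⟨rist_cj ρ hy.1, con_cj hy.2 k⟩

theorem cb_unshift {ρ : G →* (A ≃o A)} {g : G} {β : A} {y : G} {k : ℤ}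
    (hy : y ∈ cb ρ g (ρ (g ^ (-k)) β)) : cj g k y ∈ cb ρ g β := by
  have := cb_shift hy k
  have e : ρ (g ^ k) (ρ (g ^ (-k)) β) = β := by
    rw [zpow_neg, rho_rho_inv]
  rwa [e] at this

theorem exists_jump {ρ : G →* (A ≃o A)} {g : G} {W : ℤ → Subgroup G} (hW : Scale ρ g W)
    {y : G} (hy1 : y ≠ 1) {k : ℤ} (hk : y ∈ W k) : ∃ j, k ≤ j ∧ y ∈ W j ∧ y ∉ W (j + 1) := by
  by_contra hcon
  push Not at hcon
  apply hy1
  apply hW.inter
  have hall : ∀ j, k ≤ j → y ∈ W j := by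
    intro j hj
    induction j, hj using Int.le_induction with
    | base => exact hk
    | succ j hj ih => exact hcon j hj ih
  intro l
  rcases le_total k l with hl | hl
  · exact hall l hl
  · exact hW.anti l k hl hk

theorem jump_between {ρ : G →* (A ≃o A)} {g : G} {W : ℤ → Subgroup G} (hW : Scale ρ g W)
    {y : G} {k : ℤ} (hk : y ∈ W k) {m : ℤ} (hm : y ∉ W m) :
    ∃ j, k ≤ j ∧ j < m ∧ y ∈ W j ∧ y ∉ W (j + 1) := by
  have hy1 : y ≠ 1 := by
    intro e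
    apply hm
    rw [e]
    exact (W m).one_mem
  obtain ⟨j, hj, hj1, hj2⟩ := exists_jump hW hy1 hk
  refine ⟨j, hj, ?_, hj1, hj2⟩
  by_contra hcon
  exact hm (hW.anti m j (by omega) hj1)

/-- persistence of jumps -/
theorem persist {ρ : G →* (A ≃o A)} (h : WeaklyDecomposable ρ) {g : G}
    {W : ℤ → Subgroup G} (hW : Scale ρ g W) {s : ℕ}
    (hs : ∀ β ∈ E ρ g, W (-(s : ℤ)) ≤ stabS ρ β →
      (∃ y ∈ cb ρ g β, y ∈ W 0 ∧ y ∉ W 1) →
      ∃ y ∈ cb ρ g β, y ∈ W 1 ∧ y ∉ W (s + 1))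
    {β : A} (hβ : β ∈ E ρ g) :
    ∃ K : ℤ, ∀ k, K ≤ k → ∃ y ∈ cb ρ g β, y ∈ W (k + 1) ∧ y ∉ W (k + 1 + s) := by
  obtain ⟨κ, hκ⟩ := hW.fix β
  have step : ∀ k, κ + s ≤ k → (∃ y ∈ cb ρ g β, y ∈ W k ∧ y ∉ W (k + 1)) →
      ∃ y ∈ cb ρ g β, y ∈ W (k + 1) ∧ y ∉ W (k + 1 + s) := by
    rintro k hk ⟨y, hy, hyk, hyk1⟩
    obtain ⟨u, hu, hu1, hu2⟩ := hs (ρ (g ^ (-k)) β) (E_conj hβ _) (stab_shift hW hκ hk)
      ⟨cj g (-k) y, cb_shift hy _, by
        have := (hW.shift k (-k) y).1 hyk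
        rwa [add_neg_cancel] at this, by
        intro hcon
        apply hyk1
        have := (hW.shift 1 k _).1 hcon
        rw [cj_cj_neg] at this
        rwa [add_comm] at this⟩
    refine ⟨cj g k u, cb_unshift hu, ?_, ?_⟩
    · have := (hW.shift 1 k u).1 hu1
      rwa [add_comm] at this
    · intro hcon
      apply hu2
      have := (hW.shift _ (-k) _).1 hcon
      rw [cj_neg_cj] at this
      have e : k + 1 + (s : ℤ) + -k = (s : ℤ) + 1 := by ring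
      rwa [e] at this
  obtain ⟨V, hV, hVW⟩ := hW.nhds (κ + s)
  obtain ⟨r, hr, hrV, hr1⟩ := cb_nondiscrete h hβ hV
  obtain ⟨K, hK, hK1, hK2⟩ := exists_jump hW hr1 (hVW r hrV hr.2)
  refine ⟨K, ?_⟩
  intro k hk
  induction k, hk using Int.le_induction with
  | base => exact step K hK ⟨r, hr, hK1, hK2⟩
  | succ k hk ih =>
    obtain ⟨y, hy, hy1, hy2⟩ := ih
    by_cases hy3 : y ∈ W (k + 1 + 1)
    · refine ⟨y, hy, hy3, ?_⟩
      intro hcon
      exact hy2 (hW.anti _ _ (by omega) hcon)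
    · exact step (k + 1) (by omega) ⟨y, hy, hy1, hy3⟩

theorem cent_shift {ρ : G →* (A ≃o A)} {g : G}
    {W : ℤ → Subgroup G} (hW : Scale ρ g W) {t : ℕ}
    (ht : ∀ β ∈ E ρ g, W (-(t : ℤ)) ≤ stabS ρ β →
      ∀ y ∈ cb ρ g β, y ∈ W 0 → y ∉ W 1 → ∀ z ∈ con g, (∀ u ∈ cb ρ g β, z * u = u * z) →
        z⁻¹ * y ∉ W t)
    {β : A} (hβ : β ∈ E ρ g) :
    ∃ K : ℤ, ∀ k, K ≤ k → ∀ y ∈ cb ρ g β, y ∈ W k → ∀ s : ℕ, y ∉ W (k + s) →
      ∀ z ∈ con g, (∀ u ∈ cb ρ g β, z * u = u * z) → z⁻¹ * y ∉ W (k + s + t) := by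
  obtain ⟨κ, hκ⟩ := hW.fix β
  refine ⟨κ + t, ?_⟩
  intro k hk y hy hyk s hys z hz hzc hcon
  obtain ⟨j, hj, hjs, hj1, hj2⟩ := jump_between hW hyk hys
  refine ht (ρ (g ^ (-j)) β) (E_conj hβ _) (stab_shift hW hκ (by omega)) (cj g (-j) y)
    (cb_shift hy _) ?_ ?_ (cj g (-j) z) (con_cj hz _) ?_ ?_
  · have := (hW.shift j (-j) y).1 hj1
    rwa [add_neg_cancel] at this
  · intro hcon
    apply hj2
    have := (hW.shift 1 j _).1 hcon
    rw [cj_cj_neg] at this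
    rwa [add_comm] at this
  · intro u hu
    have h1 := hzc _ (cb_unshift hu)
    have h2 := congrArg (cj g (-j)) h1
    rw [cj_mul, cj_mul, cj_neg_cj] at h2
    exact h2
  · have h1 : z⁻¹ * y ∈ W (j + t) := hW.anti _ _ (by omega) hcon
    have h2 := (hW.shift _ (-j) _).1 h1
    rw [cj_mul, cj_inv] at h2
    have e : j + (t : ℤ) + -j = (t : ℤ) := by ring
    rwa [e] at h2

theorem exists_disjoint {ρ : G →* (A ≃o A)} (h : WeaklyDecomposable ρ) {g : G} (m : ℕ) :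
    ∀ β ∈ E ρ g, ∃ b : Fin m → A, (∀ i, b i ∈ E ρ g ∧ b i ≤ β) ∧
      ∀ i j, i ≠ j → b i ⊓ b j = ⊥ := by
  induction m with
  | zero =>
    intro β _
    exact ⟨fun i => i.elim0, fun i => i.elim0, fun i => i.elim0⟩
  | succ m ih =>
    intro β hβ
    obtain ⟨r, hr, -, hr1⟩ := cb_nondiscrete h hβ univ_mem
    obtain ⟨γ, hγ⟩ := exists_disp ρ h.faithful hr1
    have hγβ : γ ≤ β := disp_le ρ hr.1 hγ
    have hγE : γ ∈ E ρ g := E_mono hβ hγβ hγ.1
    obtain ⟨b, hb, hbd⟩ := ih γ hγE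
    have hrγE : ρ r γ ∈ E ρ g := by
      refine ⟨r * r * r⁻¹, ?_, disp_conj ρ hγ⟩
      rw [mul_inv_cancel_right]
      exact hr.2
    have hrγβ : ρ r γ ≤ β := by
      have := rho_mono ρ r hγβ
      rwa [rist_fix ρ hr.1] at this
    have hdis : ∀ i, ρ r γ ⊓ b i = ⊥ := by
      intro i
      have h1 : ρ r γ ⊓ b i ≤ ρ r γ ⊓ γ := inf_le_inf le_rfl (hb i).2
      rw [hγ.2] at h1
      exact le_bot_iff.mp h1
    refine ⟨Fin.cons (ρ r γ) b, ?_, ?_⟩
    · intro i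
      refine Fin.cases ?_ ?_ i
      · exact ⟨hrγE, hrγβ⟩
      · intro j
        simp only [Fin.cons_succ]
        exact ⟨(hb j).1, (hb j).2.trans hγβ⟩
    · intro i j
      refine Fin.cases ?_ ?_ i
      · refine Fin.cases ?_ ?_ j
        · intro h0
          exact absurd rfl h0
        · intro j _
          simp only [Fin.cons_zero, Fin.cons_succ]
          exact hdis j
      · intro i
        refine Fin.cases ?_ ?_ j
        · intro _
          simp only [Fin.cons_zero, Fin.cons_succ]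
          rw [inf_comm]
          exact hdis i
        · intro j hij
          simp only [Fin.cons_succ]
          exact hbd i j (fun e => hij (by rw [e]))

theorem pigeon {ρ : G →* (A ≃o A)} {g : G} {W : ℤ → Subgroup G} (hW : Scale ρ g W)
    (N : ℤ) : ∃ Q : ℕ, ∀ f : Fin (Q + 1) → G, (∀ i, f i ∈ W 0) →
      ∃ i j, i ≠ j ∧ (f i)⁻¹ * f j ∈ W N := by
  obtain ⟨V, hV, hVW⟩ := hW.nhds N
  have hc : Continuous fun p : G × G => p.1⁻¹ * p.2 := by fun_prop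
  have hc1 : (fun p : G × G => p.1⁻¹ * p.2) ⁻¹' V ∈ 𝓝 ((1 : G), (1 : G)) := by
    apply hc.continuousAt.preimage_mem_nhds
    simpa using hV
  rw [nhds_prod_eq, mem_prod_iff] at hc1
  obtain ⟨V1, hV1, V2, hV2, hVV⟩ := hc1
  have hV3 : V1 ∩ V2 ∈ 𝓝 (1 : G) := inter_mem hV1 hV2
  obtain ⟨t, -, ht⟩ := (hW.compact 0).elim_nhds_subcover
    (fun x => (fun y => x⁻¹ * y) ⁻¹' (V1 ∩ V2)) (by
      intro x _
      have hcx : Continuous fun y : G => x⁻¹ * y := by fun_prop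
      apply hcx.continuousAt.preimage_mem_nhds
      rw [inv_mul_cancel]
      exact hV3)
  refine ⟨t.card, ?_⟩
  intro f hf
  have h1 : ∀ i, ∃ x : t, (x : G)⁻¹ * f i ∈ V1 ∩ V2 := by
    intro i
    have := ht (hf i)
    simp only [mem_iUnion] at this
    obtain ⟨x, hx, hx'⟩ := this
    exact ⟨⟨x, hx⟩, hx'⟩
  choose c hc using h1
  obtain ⟨i, j, hij, hcij⟩ := Fintype.exists_ne_map_eq_of_card_lt c (by
    simp)
  refine ⟨i, j, hij, ?_⟩
  apply hVW
  · have h2 := hc i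
    have h3 := hc j
    rw [← hcij] at h3
    have h4 : ((c i : G)⁻¹ * f i, (c i : G)⁻¹ * f j) ∈ V1 ×ˢ V2 := ⟨h2.1, h3.2⟩
    have h5 := hVV h4
    have e : ((c i : G)⁻¹ * f i)⁻¹ * ((c i : G)⁻¹ * f j) = (f i)⁻¹ * f j := by group
    simp only [mem_preimage] at h5
    rwa [e] at h5
  · exact (conS g).mul_mem ((conS g).inv_mem (hW.le_con 0 _ (hf i))) (hW.le_con 0 _ (hf j))

/-- Closed contraction groups are trivial. -/
theorem con_trivial {ρ : G →* (A ≃o A)} (h : WeaklyDecomposable ρ) {g : G}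
    (hC : IsClosed (con g)) : con g = {1} := by
  by_contra hne
  have hex : ∃ x ∈ con g, x ≠ 1 := by
    by_contra hcon
    push Not at hcon
    apply hne
    ext x
    constructor
    · intro hx
      exact hcon x hx
    · intro hx
      rw [mem_singleton_iff] at hx
      rw [hx]
      exact (conS g).one_mem
  obtain ⟨x, hx, hx1⟩ := hex
  obtain ⟨β, hβ⟩ := exists_disp ρ h.faithful hx1
  have hβE : β ∈ E ρ g := ⟨x, hx, hβ⟩
  obtain ⟨W, hW⟩ := exists_scale h hC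
  obtain ⟨s, hs⟩ := gap_bound h hC hW
  obtain ⟨t, ht⟩ := cent_bound h hC hW
  obtain ⟨Q, hQ⟩ := pigeon hW (s + t)
  obtain ⟨b, hb, hbd⟩ := exists_disjoint h (Q + 1) β hβE
  choose K1 hK1 using fun i => persist h hW hs (hb i).1
  choose K2 hK2 using fun i => cent_shift hW ht (hb i).1
  obtain ⟨k, hk⟩ : ∃ k : ℤ, ∀ i, K1 i ≤ k ∧ K2 i ≤ k := by
    obtain ⟨k1, hk1⟩ := (Set.finite_range K1).bddAbove
    obtain ⟨k2, hk2⟩ := (Set.finite_range K2).bddAbove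
    exact ⟨max k1 k2, fun i => ⟨(hk1 ⟨i, rfl⟩).trans (le_max_left _ _),
      (hk2 ⟨i, rfl⟩).trans (le_max_right _ _)⟩⟩
  choose y hy hy1 hy2 using fun i => hK1 i k (hk i).1
  obtain ⟨i, j, hij, hmem⟩ := hQ (fun i => cj g (-(k + 1)) (y i)) (fun i => by
    have := (hW.shift (k + 1) (-(k + 1)) _).1 (hy1 i)
    rwa [add_neg_cancel] at this)
  -- `(y i)⁻¹ * y j ∈ W (k + 1 + s + t)`
  have h1 : (y i)⁻¹ * y j ∈ W (k + 1 + s + t) := by
    have := (hW.shift _ (k + 1) _).1 hmem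
    rw [← cj_inv, ← cj_mul, cj_cj_neg] at this
    have e : (s : ℤ) + t + (k + 1) = k + 1 + s + t := by ring
    rwa [e] at this
  refine hK2 j (k + 1) (by have := (hk j).2; omega) (y j) (hy j) (hy1 j) s (hy2 j) (y i)
    (hy i).2 ?_ h1
  intro u hu
  exact rist_comm ρ h.faithful (hbd i j hij) (hy i).1 hu.1

end Pool.TDLC
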