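import Pool.Agent.TDLC.Nub

open Topology Filter Set
open scoped Pointwise

namespace Pool.TDLC

universe u v

variable {G : Type u} [Group G] [TopologicalSpace G] [IsTopologicalGroup G]
  {A : Type v} [BooleanAlgebra A]

/-- A scale of compact open subgroups of the contraction group. -/
structure Scale (ρ : G →* (A ≃o A)) (g : G) (W : ℤ → Subgroup G) : Prop where
  compact : ∀ k, IsCompact (W k : Set G)
  le_con : ∀ k, ∀ x ∈ W k, x ∈ con g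
  anti : ∀ k l, k ≤ l → W l ≤ W k
  union : ∀ x ∈ con g, ∃ k, x ∈ W k
  nhds : ∀ k, ∃ V ∈ 𝓝 (1 : G), ∀ x ∈ V, x ∈ con g → x ∈ W k
  shift : ∀ k n x, x ∈ W k ↔ cj g n x ∈ W (k + n)
  fix : ∀ α : A, ∃ k, W k ≤ stabS ρ α
  inter : ∀ x, (∀ k, x ∈ W k) → x = 1

theorem exists_scale [LocallyCompactSpace G] [T2Space G] [TotallyDisconnectedSpace G]
    {ρ : G →* (A ≃o A)} (h : WeaklyDecomposable ρ) {g : G} (hC : IsClosed (con g)) :
    ∃ W : ℤ → Subgroup G, Scale ρ g W := by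
  obtain ⟨U, hUc, hUo⟩ := exists_compact_open_subgroup (G := G)
  have hUcl : IsClosed (U : Set G) := U.isClosed_of_isOpen hUo
  -- for an open subgroup `O`, the subgroup `O_-`
  have hgD : ∀ n : ℤ, ∀ x ∈ conS g, cj g n x ∈ conS g := fun n x hx => con_cj hx n
  have hP : ∀ O : Subgroup G, IsOpen (O : Set G) →
      (∀ x ∈ conS g, ∃ n : ℕ, cj g n x ∈ minusS g O ⊓ conS g) := by
    intro O hO x hx
    obtain ⟨n, hn⟩ := con_sub_minusminus hO hx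
    exact ⟨n, hn, con_cj hx n⟩
  have hgP : ∀ O : Subgroup G, ∀ n : ℕ, ∀ x ∈ minusS g O ⊓ conS g,
      cj g n x ∈ minusS g O ⊓ conS g := by
    intro O n x hx
    exact ⟨minus_shift hx.1 n, con_cj hx.2 n⟩
  have hPcl : ∀ O : Subgroup G, IsOpen (O : Set G) →
      IsClosed ((minusS g O ⊓ conS g : Subgroup G) : Set G) := by
    intro O hO
    rw [Subgroup.coe_inf]
    exact (minus_closed (O.isClosed_of_isOpen hO)).inter hC
  have hPo : ∀ O : Subgroup G, IsOpen (O : Set G) →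
      ∃ V ∈ 𝓝 (1 : G), ∀ x ∈ V, x ∈ conS g → x ∈ minusS g O ⊓ conS g := by
    intro O hO
    exact baire_open (g := g) (D := conS g) hC (hPcl O hO) hgD (hP O hO)
  let W0 : Subgroup G := minusS g U ⊓ conS g
  have hW0c : IsCompact (W0 : Set G) :=
    hUc.of_isClosed_subset (hPcl U hUo) (fun x hx => minus_sub hx.1)
  let W : ℤ → Subgroup G := fun k =>
    { carrier := {y | cj g (-k) y ∈ W0}
      mul_mem' := by
        intro a b ha hb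
        simp only [mem_ofPred_eq] at *
        rw [cj_mul]
        exact W0.mul_mem ha hb
      one_mem' := by
        simp only [mem_ofPred_eq]
        rw [cj_one]
        exact W0.one_mem
      inv_mem' := by
        intro a ha
        simp only [mem_ofPred_eq] at *
        rw [cj_inv]
        exact W0.inv_mem ha }
  have hW : ∀ k x, x ∈ W k ↔ cj g (-k) x ∈ W0 := fun k x => Iff.rfl
  have hshift : ∀ k n x, x ∈ W k ↔ cj g n x ∈ W (k + n) := by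
    intro k n x
    rw [hW, hW, cj_cj]
    have e : -(k + n) + n = -k := by ring
    rw [e]
  have hanti1 : ∀ k, W (k + 1) ≤ W k := by
    intro k x hx
    rw [hW] at *
    have := hgP U 1 _ hx
    rw [cj_cj] at this
    have e : ((1 : ℕ) : ℤ) + -(k + 1) = -k := by push_cast; ring
    rwa [e] at this
  have hanti : ∀ k l, k ≤ l → W l ≤ W k := by
    intro k l hkl
    induction l, hkl using Int.le_induction with
    | base => exact le_rfl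
    | succ l hl ih => exact (hanti1 l).trans ih
  have hfix : ∀ α : A, ∃ k, W k ≤ stabS ρ α := by
    intro α
    have hO : IsOpen (stabS ρ α : Set G) := isOpen_stab h α
    obtain ⟨n, hn⟩ := baire_unif (g := g) hgD (hP _ hO) (hgP _) (hPo _ hO) hW0c
      (fun x hx => hx.2)
    refine ⟨n, ?_⟩
    intro x hx
    rw [hW] at hx
    have := hn n le_rfl _ hx
    rw [cj_cj_neg] at this
    exact minus_sub this.1
  refine ⟨W, ?_, ?_, hanti, ?_, ?_, hshift, hfix, ?_⟩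
  · intro k
    have : (W k : Set G) = cj g k '' (W0 : Set G) := by
      ext x
      constructor
      · intro hx
        exact ⟨cj g (-k) x, hx, cj_cj_neg g k x⟩
      · rintro ⟨y, hy, rfl⟩
        show cj g (-k) (cj g k y) ∈ W0
        rw [cj_neg_cj]
        exact hy
    rw [this]
    exact hW0c.image (continuous_cj g k)
  · intro k x hx
    rw [hW] at hx
    have := con_cj hx.2 k
    rwa [cj_cj_neg] at this
  · intro x hx
    obtain ⟨n, hn⟩ := hP U hUo x hx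
    refine ⟨-(n : ℤ), ?_⟩
    rw [hW, neg_neg]
    exact hn
  · intro k
    obtain ⟨V, hV, hV'⟩ := hPo U hUo
    refine ⟨cj g (-k) ⁻¹' V, ?_, ?_⟩
    · apply (continuous_cj g _).continuousAt.preimage_mem_nhds
      rw [cj_one]
      exact hV
    · intro x hx hxc
      rw [hW]
      exact hV' _ hx (con_cj hxc _)
  · intro x hx
    apply h.faithful
    rw [map_one]
    ext α
    obtain ⟨k, hk⟩ := hfix α
    exact hk (hx k)

/-- Nontrivial normal subgroups of the contraction group are large. -/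
theorem comm_mem {ρ : G →* (A ≃o A)} (h : WeaklyDecomposable ρ) {g : G} {N : Subgroup G}
    (hnorm : ∀ c ∈ con g, ∀ y ∈ N, c * y * c⁻¹ ∈ N) {z : G} (hz : z ∈ N)
    {δ : A} (hd : Disp ρ z δ) {r s : G} (hr : r ∈ cb ρ g δ) (hs : s ∈ cb ρ g δ) :
    r⁻¹ * s * r * s⁻¹ ∈ N := by
  have hp : z * r * z⁻¹ ∈ rist ρ (ρ z δ) := rist_conj ρ hr.1
  have h1 : z * (r * z⁻¹ * r⁻¹) ∈ N := N.mul_mem hz (hnorm r hr.2 _ (N.inv_mem hz))
  have h2 : z * (r * z⁻¹ * r⁻¹) * (s * (z * (r * z⁻¹ * r⁻¹))⁻¹ * s⁻¹) ∈ N :=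
    N.mul_mem h1 (hnorm s hs.2 _ (N.inv_mem h1))
  have hq : r⁻¹ * s * r ∈ rist ρ δ :=
    (rist ρ δ).mul_mem ((rist ρ δ).mul_mem ((rist ρ δ).inv_mem hr.1) hs.1) hr.1
  have hcomm := rist_comm ρ h.faithful hd.2 hp hq
  have e : z * (r * z⁻¹ * r⁻¹) * (s * (z * (r * z⁻¹ * r⁻¹))⁻¹ * s⁻¹)
      = r⁻¹ * s * r * s⁻¹ := by
    have e1 : z * (r * z⁻¹ * r⁻¹) * (s * (z * (r * z⁻¹ * r⁻¹))⁻¹ * s⁻¹)
        = ((z * r * z⁻¹) * (r⁻¹ * s * r)) * (z * r * z⁻¹)⁻¹ * s⁻¹ := by group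
    rw [e1, hcomm]
    group
  rwa [e] at h2

variable [LocallyCompactSpace G] [T2Space G] [TotallyDisconnectedSpace G]

theorem cb_mono {ρ : G →* (A ≃o A)} {g : G} {γ δ : A} (h : γ ≤ δ) : cb ρ g γ ≤ cb ρ g δ :=
  fun _ hx => ⟨rist_mono ρ h hx.1, hx.2⟩

theorem normal_big {ρ : G →* (A ≃o A)} (h : WeaklyDecomposable ρ) {g : G} {N : Subgroup G}
    (hN : ∀ x ∈ N, x ∈ con g)
    (hnorm : ∀ c ∈ con g, ∀ y ∈ N, c * y * c⁻¹ ∈ N) {z : G} (hz : z ∈ N) (hz1 : z ≠ 1)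
    {V : Set G} (hV : V ∈ 𝓝 (1 : G)) : ∃ y ∈ N, y ∈ V ∧ y ≠ 1 := by
  obtain ⟨δ, hd⟩ := exists_disp ρ h.faithful hz1
  have hδ : δ ∈ E ρ g := ⟨z, hN z hz, hd⟩
  -- continuity of the commutator
  have hc : Continuous fun p : G × G => p.1⁻¹ * p.2 * p.1 * p.2⁻¹ := by fun_prop
  have hc1 : (fun p : G × G => p.1⁻¹ * p.2 * p.1 * p.2⁻¹) ⁻¹' V ∈ 𝓝 ((1 : G), (1 : G)) := by
    apply hc.continuousAt.preimage_mem_nhds
    simpa using hV
  rw [nhds_prod_eq, mem_prod_iff] at hc1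
  obtain ⟨V1, hV1, V2, hV2, hVV⟩ := hc1
  obtain ⟨r, hr, hrV, hr1⟩ := cb_nondiscrete h hδ hV1
  obtain ⟨γ, hγ⟩ := exists_disp ρ h.faithful hr1
  have hγδ : γ ≤ δ := disp_le ρ hr.1 hγ
  have hγE : γ ∈ E ρ g := E_mono hδ hγδ hγ.1
  obtain ⟨s, hs, hsV, hs1⟩ := cb_nondiscrete h hγE hV2
  refine ⟨r⁻¹ * s * r * s⁻¹, comm_mem h hnorm hz hd hr (cb_mono hγδ hs), ?_, ?_⟩
  · exact hVV (show (r, s) ∈ V1 ×ˢ V2 from ⟨hrV, hsV⟩)
  · intro h0
    have h1 : r⁻¹ * s * r = s := mul_inv_eq_one.1 h0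
    have h2 : r⁻¹ * s * r⁻¹⁻¹ ∈ rist ρ (ρ r⁻¹ γ) := rist_conj ρ hs.1
    rw [inv_inv, h1] at h2
    exact hs1 (rist_inter ρ h.faithful (disp_inv ρ hγ).2 h2 hs.1)

theorem normal_nonabelian {ρ : G →* (A ≃o A)} (h : WeaklyDecomposable ρ) {g : G}
    {N : Subgroup G} (hN : ∀ x ∈ N, x ∈ con g)
    (hnorm : ∀ c ∈ con g, ∀ y ∈ N, c * y * c⁻¹ ∈ N) {z : G} (hz : z ∈ N) (hz1 : z ≠ 1) :
    ∃ y ∈ N, ∃ y' ∈ N, y * y' ≠ y' * y := by
  obtain ⟨δ, hd⟩ := exists_disp ρ h.faithful hz1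
  have hδ : δ ∈ E ρ g := ⟨z, hN z hz, hd⟩
  obtain ⟨r, hr, -, hr1⟩ := cb_nondiscrete h hδ univ_mem
  obtain ⟨γ, hγ⟩ := exists_disp ρ h.faithful hr1
  have hγδ : γ ≤ δ := disp_le ρ hr.1 hγ
  have hγE : γ ∈ E ρ g := E_mono hδ hγδ hγ.1
  obtain ⟨s, hs, -, hs1⟩ := cb_nondiscrete h hγE univ_mem
  obtain ⟨ε, hε⟩ := exists_disp ρ h.faithful hs1
  have hεγ : ε ≤ γ := disp_le ρ hs.1 hε
  have hεE : ε ∈ E ρ g := E_mono hγE hεγ hε.1
  obtain ⟨s', hs', -, hs1'⟩ := cb_nondiscrete h hεE univ_mem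
  have hs'γ : s' ∈ cb ρ g γ := cb_mono hεγ hs'
  have hne : s * s' ≠ s' * s := by
    intro e
    have h1 : s * s' * s⁻¹ ∈ rist ρ (ρ s ε) := rist_conj ρ hs'.1
    rw [e, mul_inv_cancel_right] at h1
    exact hs1' (rist_inter ρ h.faithful hε.2 h1 hs'.1)
  refine ⟨_, comm_mem h hnorm hz hd hr (cb_mono hγδ hs), _,
    comm_mem h hnorm hz hd hr (cb_mono hγδ hs'γ), ?_⟩
  intro e
  apply hne
  have hd' := (disp_inv ρ hγ).2
  have ha : r⁻¹ * s * r ∈ rist ρ (ρ r⁻¹ γ) := by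
    have := rist_conj ρ (z := r⁻¹) hs.1
    rwa [inv_inv] at this
  have ha' : r⁻¹ * s' * r ∈ rist ρ (ρ r⁻¹ γ) := by
    have := rist_conj ρ (z := r⁻¹) hs'γ.1
    rwa [inv_inv] at this
  generalize r⁻¹ * s * r = a at *
  generalize r⁻¹ * s' * r = a' at *
  have c1 : a' * s⁻¹ = s⁻¹ * a' :=
    rist_comm ρ h.faithful hd' ha' ((rist ρ γ).inv_mem hs.1)
  have c2 : a * s'⁻¹ = s'⁻¹ * a :=
    rist_comm ρ h.faithful hd' ha ((rist ρ γ).inv_mem hs'γ.1)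
  have e1 : a * a' * (s⁻¹ * s'⁻¹) = a' * a * (s'⁻¹ * s⁻¹) := by
    calc a * a' * (s⁻¹ * s'⁻¹) = a * (a' * s⁻¹) * s'⁻¹ := by group
      _ = a * (s⁻¹ * a') * s'⁻¹ := by rw [c1]
      _ = a * s⁻¹ * (a' * s'⁻¹) := by group
      _ = a' * s'⁻¹ * (a * s⁻¹) := e
      _ = a' * (s'⁻¹ * a) * s⁻¹ := by group
      _ = a' * (a * s'⁻¹) * s⁻¹ := by rw [c2]
      _ = a' * a * (s'⁻¹ * s⁻¹) := by group
  have e2 : (a' * a)⁻¹ * (a * a') = (s'⁻¹ * s⁻¹) * (s⁻¹ * s'⁻¹)⁻¹ := by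
    rw [inv_mul_eq_iff_eq_mul, ← mul_assoc, ← e1]
    group
  have m1 : (a' * a)⁻¹ * (a * a') ∈ rist ρ (ρ r⁻¹ γ) :=
    (rist ρ _).mul_mem ((rist ρ _).inv_mem ((rist ρ _).mul_mem ha' ha))
      ((rist ρ _).mul_mem ha ha')
  have m2 : (s'⁻¹ * s⁻¹) * (s⁻¹ * s'⁻¹)⁻¹ ∈ rist ρ γ :=
    (rist ρ _).mul_mem ((rist ρ _).mul_mem ((rist ρ _).inv_mem hs'γ.1)
      ((rist ρ _).inv_mem hs.1)) ((rist ρ _).inv_mem ((rist ρ _).mul_mem
      ((rist ρ _).inv_mem hs.1) ((rist ρ _).inv_mem hs'γ.1)))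
  rw [← e2] at m2
  have h1 := rist_inter ρ h.faithful hd' m1 m2
  rw [e2, mul_inv_eq_one] at h1
  have h2 := congrArg (fun t => t⁻¹) h1
  simpa using h2

end Pool.TDLC
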