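import Pool.Agent.TDLC.Top

open Topology Filter Set
open scoped Pointwise

namespace Pool.TDLC

universe u v

variable {G : Type u} [Group G]

/-- `U_+` as a subgroup -/
def plusS (g : G) (U : Subgroup G) : Subgroup G where
  carrier := plus g U
  mul_mem' := by
    intro a b ha hb
    rw [mem_plus] at *
    intro n
    rw [cj_mul]
    exact U.mul_mem (ha n) (hb n)
  one_mem' := by
    rw [mem_plus]
    intro n
    rw [cj_one]
    exact U.one_mem
  inv_mem' := by
    intro a ha
    rw [mem_plus] at *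
    intro n
    rw [cj_inv]
    exact U.inv_mem (ha n)

/-- `U_-` as a subgroup -/
def minusS (g : G) (U : Subgroup G) : Subgroup G where
  carrier := minus g U
  mul_mem' := by
    intro a b ha hb
    rw [mem_minus] at *
    intro n
    rw [cj_mul]
    exact U.mul_mem (ha n) (hb n)
  one_mem' := by
    rw [mem_minus]
    intro n
    rw [cj_one]
    exact U.one_mem
  inv_mem' := by
    intro a ha
    rw [mem_minus] at *
    intro n
    rw [cj_inv]
    exact U.inv_mem (ha n)

theorem plus_shift {g : G} {U : Subgroup G} {x : G} (hx : x ∈ plus g U) (k : ℕ) :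
    cj g (-(k : ℤ)) x ∈ plus g U := by
  rw [mem_plus] at *
  intro n
  rw [cj_cj]
  have := hx (n + k)
  have e : -((n + k : ℕ) : ℤ) = -(n : ℤ) + -(k : ℤ) := by push_cast; ring
  rwa [e] at this

theorem minus_shift {g : G} {U : Subgroup G} {x : G} (hx : x ∈ minus g U) (k : ℕ) :
    cj g (k : ℤ) x ∈ minus g U := by
  rw [mem_minus] at *
  intro n
  rw [cj_cj]
  have := hx (n + k)
  have e : ((n + k : ℕ) : ℤ) = (n : ℤ) + (k : ℤ) := by push_cast; ring
  rwa [e] at this

theorem plus_sub {g : G} {U : Subgroup G} {x : G} (hx : x ∈ plus g U) : x ∈ U := by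
  rw [mem_plus] at hx
  have := hx 0
  simpa [cj_zero] using this

theorem minus_sub {g : G} {U : Subgroup G} {x : G} (hx : x ∈ minus g U) : x ∈ U := by
  rw [mem_minus] at hx
  have := hx 0
  simpa [cj_zero] using this

/-- `U_pp` as a subgroup -/
def plusplus (g : G) (U : Subgroup G) : Subgroup G where
  carrier := {x | ∃ n : ℕ, cj g (-(n : ℤ)) x ∈ plus g U}
  mul_mem' := by
    rintro a b ⟨n, hn⟩ ⟨m, hm⟩
    refine ⟨n + m, ?_⟩
    rw [cj_mul]
    refine (plusS g U).mul_mem ?_ ?_
    · have := plus_shift hn m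
      rw [cj_cj] at this
      have e : -((n + m : ℕ) : ℤ) = -(m : ℤ) + -(n : ℤ) := by push_cast; ring
      rw [e]
      exact this
    · have := plus_shift hm n
      rw [cj_cj] at this
      have e : -((n + m : ℕ) : ℤ) = -(n : ℤ) + -(m : ℤ) := by push_cast; ring
      rw [e]
      exact this
  one_mem' := ⟨0, by rw [cj_one]; exact (plusS g U).one_mem⟩
  inv_mem' := by
    rintro a ⟨n, hn⟩
    refine ⟨n, ?_⟩
    rw [cj_inv]
    exact (plusS g U).inv_mem hn

/-- `U_mm` as a subgroup -/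
def minusminus (g : G) (U : Subgroup G) : Subgroup G where
  carrier := {x | ∃ n : ℕ, cj g (n : ℤ) x ∈ minus g U}
  mul_mem' := by
    rintro a b ⟨n, hn⟩ ⟨m, hm⟩
    refine ⟨n + m, ?_⟩
    rw [cj_mul]
    refine (minusS g U).mul_mem ?_ ?_
    · have := minus_shift hn m
      rw [cj_cj] at this
      have e : ((n + m : ℕ) : ℤ) = (m : ℤ) + (n : ℤ) := by push_cast; ring
      rw [e]
      exact this
    · have := minus_shift hm n
      rw [cj_cj] at this
      have e : ((n + m : ℕ) : ℤ) = (n : ℤ) + (m : ℤ) := by push_cast; ring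
      rw [e]
      exact this
  one_mem' := ⟨0, by rw [cj_one]; exact (minusS g U).one_mem⟩
  inv_mem' := by
    rintro a ⟨n, hn⟩
    refine ⟨n, ?_⟩
    rw [cj_inv]
    exact (minusS g U).inv_mem hn

theorem plusplus_eq (g : G) (U : Subgroup G) :
    (plusplus g U : Set G) = ⋃ n : ℕ, conjSet g n (plus g U) := by
  ext x
  simp only [mem_iUnion, mem_conjSet]
  rfl

theorem plusplus_cj {g : G} {U : Subgroup G} {x : G} (hx : x ∈ plusplus g U) (k : ℤ) :
    cj g k x ∈ plusplus g U := by
  obtain ⟨n, hn⟩ := hx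
  have h1 := plus_shift hn k.natAbs
  rw [cj_cj] at h1
  -- cj g (-|k| - n) x ∈ plus
  refine ⟨(k + k.natAbs + n).toNat, ?_⟩
  have e : -(((k + k.natAbs + n).toNat : ℕ) : ℤ) = -(k.natAbs : ℤ) + -(n : ℤ) + -k := by
    have : 0 ≤ k + k.natAbs + n := by omega
    rw [Int.toNat_of_nonneg this]
    ring
  rw [e, cj_cj]
  have e2 : -(k.natAbs : ℤ) + -(n : ℤ) + -k + k = -(k.natAbs : ℤ) + -(n : ℤ) := by ring
  rw [e2]
  exact h1

variable [TopologicalSpace G] [IsTopologicalGroup G]

theorem plus_closed {g : G} {U : Subgroup G} (hU : IsClosed (U : Set G)) :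
    IsClosed (plus g U) := by
  have : plus g U = ⋂ n : ℕ, cj g (-(n : ℤ)) ⁻¹' (U : Set G) := by
    ext x
    simp only [mem_plus, mem_iInter, mem_preimage, SetLike.mem_coe]
  rw [this]
  exact isClosed_iInter fun n => hU.preimage (continuous_cj g _)

theorem minus_closed {g : G} {U : Subgroup G} (hU : IsClosed (U : Set G)) :
    IsClosed (minus g U) := by
  have : minus g U = ⋂ n : ℕ, cj g (n : ℤ) ⁻¹' (U : Set G) := by
    ext x
    simp only [mem_minus, mem_iInter, mem_preimage, SetLike.mem_coe]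
  rw [this]
  exact isClosed_iInter fun n => hU.preimage (continuous_cj g _)

/-- `U_pp ∩ U = U_+` for tidy `U`. -/
theorem plusplus_inter [LocallyCompactSpace G] [T2Space G] {g : G} {U : Subgroup G}
    (hU : IsTidy g U) {y : G} (hy : y ∈ plusplus g U) (hyU : y ∈ U) : y ∈ plus g U := by
  have hUcl : IsClosed (U : Set G) := U.isClosed_of_isOpen hU.isOpen
  have hD : IsClosed (plusplus g U : Set G) := by
    rw [plusplus_eq]; exact hU.closed
  have hgD : ∀ n : ℤ, ∀ x ∈ plusplus g U, cj g⁻¹ n x ∈ plusplus g U := by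
    intro n x hx
    rw [cj_ginv]
    exact plusplus_cj hx _
  have hun : ∀ x ∈ plusplus g U, ∃ n : ℕ, cj g⁻¹ n x ∈ plusS g U := by
    rintro x ⟨n, hn⟩
    refine ⟨n, ?_⟩
    rw [cj_ginv]
    exact hn
  have hgP : ∀ n : ℕ, ∀ x ∈ plusS g U, cj g⁻¹ n x ∈ plusS g U := by
    intro n x hx
    rw [cj_ginv]
    exact plus_shift hx n
  have hV := baire_open (g := g⁻¹) (D := plusplus g U) (P := plusS g U) hD
    (plus_closed hUcl) hgD hun
  obtain ⟨n, hn⟩ := baire_unif (g := g⁻¹) hgD hun hgP hV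
    (Q := (plusplus g U : Set G) ∩ U) (hU.isCompact.inter_left hD) inter_subset_left
  have hS : ∀ z, z ∈ plusplus g U → z ∈ minus g U → z ∈ plus g U := by
    intro z hz hz'
    have h1 : cj g n z ∈ plusplus g U := plusplus_cj hz n
    have h2 : cj g n z ∈ minus g U := minus_shift hz' n
    have h3 := hn n le_rfl _ ⟨h1, minus_sub h2⟩
    rw [cj_ginv, cj_neg_cj] at h3
    exact h3
  have h4 : y⁻¹ ∈ (U : Set G) := U.inv_mem hyU
  rw [hU.factor] at h4
  obtain ⟨a, ha, b, hb, hab⟩ := Set.mem_mul.1 h4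
  have h5 : b⁻¹ = y * a := by
    have : y = b⁻¹ * a⁻¹ := by rw [← mul_inv_rev, hab, inv_inv]
    rw [this]; group
  have haD : a ∈ plusplus g U := ⟨0, by simpa [cj_zero] using ha⟩
  have h6 : b⁻¹ ∈ plusplus g U := by
    rw [h5]
    exact (plusplus g U).mul_mem hy haD
  have h7 : b⁻¹ ∈ plus g U := hS _ h6 ((minusS g U).inv_mem hb)
  have h8 : y = b⁻¹ * a⁻¹ := by rw [← mul_inv_rev, hab, inv_inv]
  rw [h8]
  exact (plusS g U).mul_mem h7 ((plusS g U).inv_mem ha)

/-- `U_mm ∩ U = U_-` for tidy `U`. -/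
theorem minusminus_inter [LocallyCompactSpace G] [T2Space G] {g : G} {U : Subgroup G}
    (hU : IsTidy g U) {y : G} (hy : y ∈ minusminus g U) (hyU : y ∈ U) : y ∈ minus g U := by
  have h4 : y ∈ (U : Set G) := hyU
  rw [hU.factor] at h4
  obtain ⟨a, ha, b, hb, hab⟩ := Set.mem_mul.1 h4
  have h5 : a = y * b⁻¹ := by rw [← hab]; group
  have hbM : b ∈ minusminus g U := ⟨0, by simpa [cj_zero] using hb⟩
  have h6 : a ∈ minusminus g U := by
    rw [h5]
    exact (minusminus g U).mul_mem hy ((minusminus g U).inv_mem hbM)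
  obtain ⟨n, hn⟩ := h6
  have haD : a ∈ plusplus g U := ⟨0, by simpa [cj_zero] using ha⟩
  have h7 : cj g n a ∈ plus g U := plusplus_inter hU (plusplus_cj haD n) (minus_sub hn)
  have h8 : a ∈ minus g U := by
    rw [mem_minus]
    intro k
    rcases le_total n k with hk | hk
    · have := (mem_minus.1 hn) (k - n)
      rw [cj_cj] at this
      have e : ((k - n : ℕ) : ℤ) + (n : ℤ) = (k : ℤ) := by omega
      rwa [e] at this
    · have := (mem_plus.1 h7) (n - k)
      rw [cj_cj] at this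
      have e : -((n - k : ℕ) : ℤ) + (n : ℤ) = (k : ℤ) := by omega
      rwa [e] at this
  rw [← hab]
  exact (minusS g U).mul_mem h8 hb

theorem minusminus_closed [LocallyCompactSpace G] [T2Space G] {g : G} {U : Subgroup G}
    (hU : IsTidy g U) : IsClosed (minusminus g U : Set G) := by
  have hUcl : IsClosed (U : Set G) := U.isClosed_of_isOpen hU.isOpen
  rw [← closure_subset_iff_isClosed]
  intro z hz
  -- pick `y` in `z U ∩ U_mm`
  have h1 : (fun t => z⁻¹ * t) ⁻¹' (U : Set G) ∈ 𝓝 z := by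
    apply (hU.isOpen.preimage (continuous_const.mul continuous_id)).mem_nhds
    show z⁻¹ * z ∈ U
    rw [inv_mul_cancel]; exact U.one_mem
  obtain ⟨y, hyU, hyM⟩ := mem_closure_iff_nhds.1 hz _ h1
  have hyU' : z⁻¹ * y ∈ U := hyU
  have h2 : y⁻¹ * z ∈ U := by
    have := U.inv_mem hyU'
    rwa [mul_inv_rev, inv_inv] at this
  have hzT : z ∈ (minusminus g U).topologicalClosure := hz
  have hyT : y ∈ (minusminus g U).topologicalClosure :=
    (minusminus g U).le_topologicalClosure hyM
  have h3 : y⁻¹ * z ∈ closure (minusminus g U : Set G) :=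
    (minusminus g U).topologicalClosure.mul_mem
      ((minusminus g U).topologicalClosure.inv_mem hyT) hzT
  have h4 : y⁻¹ * z ∈ closure ((U : Set G) ∩ (minusminus g U : Set G)) :=
    hU.isOpen.inter_closure ⟨h2, h3⟩
  have h5 : (U : Set G) ∩ (minusminus g U : Set G) ⊆ minus g U := by
    rintro t ⟨ht1, ht2⟩
    exact minusminus_inter hU ht2 ht1
  have h6 : y⁻¹ * z ∈ minus g U :=
    (closure_minimal h5 (minus_closed hUcl)) h4
  have h7 : y⁻¹ * z ∈ minusminus g U := ⟨0, by simpa [cj_zero] using h6⟩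
  have : z = y * (y⁻¹ * z) := by group
  rw [this]
  exact (minusminus g U).mul_mem hyM h7

theorem con_sub_minusminus {g : G} {U : Subgroup G} (hUo : IsOpen (U : Set G)) :
    con g ⊆ minusminus g U := by
  intro x hx
  rw [mem_con] at hx
  have h1 : ∀ᶠ n : ℕ in atTop, cj g (n : ℤ) x ∈ (U : Set G) :=
    hx (hUo.mem_nhds U.one_mem)
  obtain ⟨N, hN⟩ := eventually_atTop.1 h1
  refine ⟨N, ?_⟩
  rw [mem_minus]
  intro n
  rw [cj_cj]
  have := hN (n + N) (by omega)
  push_cast at this
  exact this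

/-- If the nub of `g` is trivial then the contraction group of `g` is closed. -/
theorem closed_of_nub [LocallyCompactSpace G] [T2Space G] {g : G} (hn : nub g = {1}) :
    IsClosed (con g) := by
  rw [← closure_subset_iff_isClosed]
  intro z hz
  have hmain : ∀ U : Subgroup G, IsTidy g U → ∀ᶠ n : ℕ in atTop, cj g (n : ℤ) z ∈ U := by
    intro U hU
    have h1 : z ∈ minusminus g U :=
      closure_minimal (con_sub_minusminus hU.isOpen) (minusminus_closed hU) hz
    obtain ⟨N, hN⟩ := h1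
    filter_upwards [eventually_ge_atTop N] with n hn
    have := (mem_minus.1 hN) (n - N)
    rw [cj_cj] at this
    have e : ((n - N : ℕ) : ℤ) + (N : ℤ) = (n : ℤ) := by omega
    rwa [e] at this
  rw [mem_con]
  intro V hV
  obtain ⟨O, hOV, hO, h1O⟩ := mem_nhds_iff.1 hV
  show ∀ᶠ n : ℕ in atTop, cj g (n : ℤ) z ∈ V
  by_cases hOu : O = Set.univ
  · refine Filter.Eventually.of_forall fun n => hOV ?_
    rw [hOu]; trivial
  · have hex : ∃ y, y ∉ O := by
      by_contra hcon
      push Not at hcon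
      exact hOu (eq_univ_of_forall hcon)
    obtain ⟨y, hy⟩ := hex
    have hsep : ∀ y : G, y ∉ O → ∃ U : Subgroup G, IsTidy g U ∧ y ∉ U := by
      intro y hy
      have h1 : y ∉ nub g := by
        rw [hn]
        intro h
        rw [mem_singleton_iff] at h
        rw [h] at hy
        exact hy h1O
      by_contra hcon
      push Not at hcon
      exact h1 hcon
    obtain ⟨U0, hU0, -⟩ := hsep y hy
    have hK : IsCompact ((U0 : Set G) \ O) := hU0.isCompact.diff hO
    have : ∃ P : ℕ → Prop, (∀ᶠ n : ℕ in atTop, P n) ∧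
        ∀ n, P n → cj g (n : ℤ) z ∉ (U0 : Set G) \ O := by
      refine hK.induction_on (p := fun S => ∃ P : ℕ → Prop, (∀ᶠ n : ℕ in atTop, P n) ∧
        ∀ n, P n → cj g (n : ℤ) z ∉ S) ?_ ?_ ?_ ?_
      · exact ⟨fun _ => True, Filter.Eventually.of_forall fun _ => trivial, by simp⟩
      · rintro s t hst ⟨P, hP, hPt⟩
        exact ⟨P, hP, fun n hn h => hPt n hn (hst h)⟩
      · rintro s t ⟨P, hP, hPs⟩ ⟨Q, hQ, hQt⟩
        refine ⟨fun n => P n ∧ Q n, hP.and hQ, ?_⟩
        rintro n ⟨h1, h2⟩ (h | h)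
        · exact hPs n h1 h
        · exact hQt n h2 h
      · rintro x ⟨-, hxO⟩
        obtain ⟨U, hU, hxU⟩ := hsep x hxO
        have hUcl : IsClosed (U : Set G) := U.isClosed_of_isOpen hU.isOpen
        refine ⟨(U : Set G)ᶜ, mem_nhdsWithin_of_mem_nhds (hUcl.isOpen_compl.mem_nhds hxU),
          fun n => cj g (n : ℤ) z ∈ U, hmain U hU, ?_⟩
        intro n h1 h2
        exact h2 h1
    obtain ⟨P, hP, hPn⟩ := this
    filter_upwards [hP, hmain U0 hU0] with n h1 h2
    by_contra h3
    exact hPn n h1 ⟨h2, fun h => h3 (hOV h)⟩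

end Pool.TDLC
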