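import Pool.Agent.TDLC.Basic

open Topology Filter Set
open scoped Pointwise

namespace Pool.TDLC

universe u v

section VanDantzig

variable {G : Type u} [Group G] [TopologicalSpace G] [IsTopologicalGroup G]

theorem exists_compact_open_subgroup [LocallyCompactSpace G] [T2Space G]
    [TotallyDisconnectedSpace G] :
    ∃ U : Subgroup G, IsCompact (U : Set G) ∧ IsOpen (U : Set G) := by
  -- a compact open neighbourhood `W` of `1`
  obtain ⟨K, hK, hK1⟩ := exists_compact_mem_nhds (1 : G)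
  obtain ⟨W, hW, h1W, hWK⟩ :=
    (loc_compact_Haus_tot_disc_of_zero_dim (H := G)).mem_nhds_iff.1 hK1
  have hWc : IsCompact W := hK.of_isClosed_subset hW.isClosed hWK
  obtain ⟨V, hV, hWV⟩ := compact_open_separated_mul_right hWc hW.isOpen Subset.rfl
  let H : Subgroup G :=
    { carrier := {h | ∀ w ∈ W, w * h ∈ W ∧ w * h⁻¹ ∈ W}
      mul_mem' := by
        intro a b ha hb w hw
        refine ⟨?_, ?_⟩
        · rw [← mul_assoc]
          exact (hb _ (ha w hw).1).1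
        · rw [mul_inv_rev, ← mul_assoc]
          exact (ha _ (hb w hw).2).2
      one_mem' := by
        intro w hw
        simpa using hw
      inv_mem' := by
        intro a ha w hw
        refine ⟨(ha w hw).2, ?_⟩
        rw [inv_inv]
        exact (ha w hw).1 }
  have hH : (H : Set G) ∈ 𝓝 (1 : G) := by
    have hV' : V⁻¹ ∈ 𝓝 (1 : G) := inv_mem_nhds_one G hV
    filter_upwards [hV, hV'] with h h1 h2 w hw
    exact ⟨hWV (Set.mul_mem_mul hw h1), hWV (Set.mul_mem_mul hw h2)⟩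
  have hHo : IsOpen (H : Set G) := H.isOpen_of_mem_nhds hH
  refine ⟨H, ?_, hHo⟩
  have hsub : (H : Set G) ⊆ W := by
    intro h hh
    simpa using (hh 1 h1W).1
  exact hWc.of_isClosed_subset (H.isClosed_of_isOpen hHo) hsub

end VanDantzig

section Baire

variable {G : Type u} [Group G] [TopologicalSpace G] [IsTopologicalGroup G]

/-- Baire category argument: if the closed subgroup `D` is the increasing union of the conjugates
`g ^ (-n) P g ^ n` of a closed subgroup `P`, then `P` is open in `D`. -/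
theorem baire_open [LocallyCompactSpace G] [T2Space G] {g : G} {D P : Subgroup G}
    (hD : IsClosed (D : Set G)) (hP : IsClosed (P : Set G))
    (hgD : ∀ n : ℤ, ∀ x ∈ D, cj g n x ∈ D)
    (hun : ∀ x ∈ D, ∃ n : ℕ, cj g n x ∈ P) :
    ∃ V ∈ 𝓝 (1 : G), ∀ x ∈ V, x ∈ D → x ∈ P := by
  have : LocallyCompactSpace D := hD.isClosedEmbedding_subtypeVal.locallyCompactSpace
  have : Nonempty D := ⟨1⟩
  have hcl : ∀ n : ℕ, IsClosed {x : D | cj g n (x : G) ∈ P} := by
    intro n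
    exact hP.preimage ((continuous_cj g n).comp continuous_subtype_val)
  have hU : (⋃ n : ℕ, {x : D | cj g n (x : G) ∈ P}) = Set.univ := by
    ext x
    simp only [mem_iUnion, mem_univ, iff_true]
    obtain ⟨n, hn⟩ := hun x x.2
    exact ⟨n, hn⟩
  obtain ⟨n, x, hx⟩ := nonempty_interior_of_iUnion_of_closed hcl hU
  rw [mem_interior_iff_mem_nhds, nhds_subtype, mem_comap] at hx
  obtain ⟨V, hV, hVx⟩ := hx
  -- translate and conjugate
  have hx0 : cj g n (x : G) ∈ P := by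
    have h0 : (x : G) ∈ V := mem_of_mem_nhds hV
    have : x ∈ {x : D | cj g n (x : G) ∈ P} := hVx h0
    exact this
  have hc : Continuous fun y : G => (x : G) * cj g (-(n : ℤ)) y :=
    continuous_const.mul (continuous_cj g _)
  have hV' : (fun y : G => (x : G) * cj g (-(n : ℤ)) y) ⁻¹' V ∈ 𝓝 (1 : G) := by
    apply hc.continuousAt.preimage_mem_nhds
    rw [cj_one, mul_one]
    exact hV
  refine ⟨_, hV', ?_⟩
  intro y hy hyD
  have h1 : (x : G) * cj g (-(n : ℤ)) y ∈ D := D.mul_mem x.2 (hgD _ _ hyD)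
  have h2 : (⟨_, h1⟩ : D) ∈ {x : D | cj g n (x : G) ∈ P} := hVx hy
  have h3 : cj g n ((x : G) * cj g (-(n : ℤ)) y) ∈ P := h2
  rw [cj_mul, cj_cj_neg] at h3
  exact (P.mul_mem_cancel_left hx0).1 h3

/-- Uniform contraction on compact sets. -/
theorem baire_unif {g : G} {D P : Subgroup G}
    (hgD : ∀ n : ℤ, ∀ x ∈ D, cj g n x ∈ D)
    (hun : ∀ x ∈ D, ∃ n : ℕ, cj g n x ∈ P)
    (hgP : ∀ n : ℕ, ∀ x ∈ P, cj g n x ∈ P)
    (hV : ∃ V ∈ 𝓝 (1 : G), ∀ x ∈ V, x ∈ D → x ∈ P)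
    {Q : Set G} (hQ : IsCompact Q) (hQD : Q ⊆ D) :
    ∃ n : ℕ, ∀ m : ℕ, n ≤ m → ∀ x ∈ Q, cj g m x ∈ P := by
  obtain ⟨V, hV, hVP⟩ := hV
  -- the increasing sequence of sets
  have key : ∀ x ∈ Q, ∃ T ∈ 𝓝[Q] x, ∃ n : ℕ, ∀ y ∈ T, cj g n y ∈ P := by
    intro x hx
    obtain ⟨n, hn⟩ := hun x (hQD hx)
    have hc : Continuous fun y : G => cj g n (x⁻¹ * y) :=
      (continuous_cj g _).comp (continuous_const.mul continuous_id)
    have hV' : (fun y : G => cj g n (x⁻¹ * y)) ⁻¹' V ∈ 𝓝 x := by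
      apply hc.continuousAt.preimage_mem_nhds
      simp only [inv_mul_cancel, cj_one]
      exact hV
    refine ⟨_, inter_mem (mem_nhdsWithin_of_mem_nhds hV') self_mem_nhdsWithin, n, ?_⟩
    rintro y ⟨hy, hyQ⟩
    have h1 : x⁻¹ * y ∈ D := D.mul_mem (D.inv_mem (hQD hx)) (hQD hyQ)
    have h2 : cj g n (x⁻¹ * y) ∈ P := hVP _ hy (hgD n _ h1)
    rw [cj_mul, cj_inv] at h2
    exact (P.mul_mem_cancel_left (P.inv_mem hn)).1 h2
  have hind : ∃ n : ℕ, ∀ y ∈ Q, cj g n y ∈ P := by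
    refine hQ.induction_on (p := fun S => ∃ n : ℕ, ∀ y ∈ S, cj g n y ∈ P) ?_ ?_ ?_ ?_
    · exact ⟨0, by simp⟩
    · intro s t hst ⟨n, hn⟩
      exact ⟨n, fun y hy => hn y (hst hy)⟩
    · intro s t ⟨n, hn⟩ ⟨m, hm⟩
      refine ⟨n + m, ?_⟩
      intro y hy
      rcases hy with hy | hy
      · have := hgP m _ (hn y hy)
        rw [cj_cj] at this
        push_cast
        rwa [add_comm]
      · have := hgP n _ (hm y hy)
        rw [cj_cj] at this
        push_cast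
        exact this
    · intro x hx
      obtain ⟨T, hT, n, hn⟩ := key x hx
      exact ⟨T, hT, n, hn⟩
  obtain ⟨n, hn⟩ := hind
  refine ⟨n, ?_⟩
  intro m hm x hx
  have := hgP (m - n) _ (hn x hx)
  rw [cj_cj] at this
  have e : ((m - n : ℕ) : ℤ) + (n : ℤ) = (m : ℤ) := by omega
  rwa [e] at this

end Baire

section Rist

variable {G : Type u} [Group G] [TopologicalSpace G] [IsTopologicalGroup G]
  {A : Type v} [BooleanAlgebra A] {ρ : G →* (A ≃o A)}

theorem isOpen_stab (h : WeaklyDecomposable ρ) (α : A) : IsOpen {h : G | ρ h α = α} := by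
  by_cases hα : α = ⊥
  · subst hα
    have : {h : G | ρ h (⊥ : A) = ⊥} = Set.univ := by
      ext x
      simp [rho_bot]
    rw [this]
    exact isOpen_univ
  · exact h.isOpen_stabilizer α hα

theorem isOpen_same (h : WeaklyDecomposable ρ) (a : G) (α : A) :
    IsOpen {h : G | ρ h α = ρ a α} := by
  have h1 : {h : G | ρ h α = ρ a α} = (fun y => a⁻¹ * y) ⁻¹' {h : G | ρ h α = α} := by
    ext x
    simp only [mem_ofPred_eq, mem_preimage]
    rw [rho_mul]
    constructor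
    · intro hx
      rw [hx, rho_inv_rho]
    · intro hx
      rw [← hx, rho_rho_inv, hx]
  rw [h1]
  exact (isOpen_stab h α).preimage (continuous_const.mul continuous_id)

/-- The stabilizer of `α` as a subgroup. -/
def stabS (ρ : G →* (A ≃o A)) (α : A) : Subgroup G where
  carrier := {h : G | ρ h α = α}
  mul_mem' := by
    intro a b ha hb
    simp only [mem_ofPred_eq] at *
    rw [rho_mul, hb, ha]
  one_mem' := rho_one ρ α
  inv_mem' := by
    intro a ha
    simp only [mem_ofPred_eq] at *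
    conv_lhs => rw [← ha]
    rw [rho_inv_rho]

theorem mem_stabS {α : A} {y : G} : y ∈ stabS ρ α ↔ ρ y α = α := Iff.rfl

/-- Lemma A. -/
theorem lemA (h : WeaklyDecomposable ρ) {g x : G} (hx : x ∈ con g) {β : A} (hβ : Disp ρ x β)
    {K : Set G} (hK : IsCompact K) (h1 : (1 : G) ∉ K) :
    ∃ J : ℕ, ∀ i : ℕ, J ≤ i → ∀ y ∈ K, y ∉ rist ρ (ρ (g ^ (i : ℤ)) β) := by
  by_contra hcon
  push Not at hcon
  choose i hi y hyK hyR using hcon
  have hle : (Ultrafilter.map y (hyperfilter ℕ) : Filter G) ≤ 𝓟 K := by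
    rw [le_principal_iff, Ultrafilter.coe_map, Filter.mem_map]
    exact Filter.univ_mem' hyK
  obtain ⟨z, hzK, hz⟩ := hK.ultrafilter_le_nhds _ hle
  have hz' : Tendsto y (hyperfilter ℕ) (𝓝 z) := hz
  have hz1 : z ≠ 1 := fun e => h1 (e ▸ hzK)
  obtain ⟨δ, hδ⟩ := exists_disp ρ h.faithful hz1
  have e1 : ∀ᶠ n in (hyperfilter ℕ : Filter ℕ), ρ (y n) δ = ρ z δ :=
    hz' ((isOpen_same h z δ).mem_nhds rfl)
  have e2 : ∀ᶠ n : ℕ in atTop, ρ (cj g (n : ℤ) x) δ = δ :=
    (mem_con.1 hx) ((isOpen_stab h δ).mem_nhds (rho_one ρ δ))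
  obtain ⟨N, hN⟩ := eventually_atTop.1 e2
  have e3 : ∀ᶠ n in (hyperfilter ℕ : Filter ℕ), N ≤ n := by
    have : (hyperfilter ℕ : Filter ℕ) ≤ atTop := by
      rw [← Nat.cofinite_eq_atTop]
      exact hyperfilter_le_cofinite
    exact this (eventually_ge_atTop N)
  obtain ⟨n, hn1, hn2⟩ := (e1.and e3).exists
  have hd : Disp ρ (y n) δ := ⟨hδ.1, by rw [hn1]; exact hδ.2⟩
  have hle1 : δ ≤ ρ (g ^ (i n : ℤ)) β := disp_le ρ (hyR n) hd
  have hd2 : Disp ρ (cj g (i n : ℤ) x) (ρ (g ^ (i n : ℤ)) β) := disp_conj ρ hβ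
  have hd3 := disp_mono ρ hd2 hle1 hδ.1
  have hfix := hN (i n) (hn2.trans (hi n))
  have := hd3.2
  rw [hfix, inf_idem] at this
  exact hδ.1 this

/-- Lemma 2: near `1`, the rigid stabilizer of an element displaced by the contraction group is
contained in the contraction group. -/
theorem rist_near [LocallyCompactSpace G] [T2Space G] [TotallyDisconnectedSpace G]
    (h : WeaklyDecomposable ρ) {g x : G} (hx : x ∈ con g) {β : A} (hβ : Disp ρ x β) :
    ∃ V ∈ 𝓝 (1 : G), ∀ r ∈ V, r ∈ rist ρ β → r ∈ con g := by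
  obtain ⟨U, hUc, hUo⟩ := exists_compact_open_subgroup (G := G)
  have hUcl : IsClosed (U : Set G) := U.isClosed_of_isOpen hUo
  -- first step
  have hK1 : IsCompact ((U : Set G) \ (cj g 1 ⁻¹' (U : Set G))) :=
    hUc.diff (hUo.preimage (continuous_cj g 1))
  obtain ⟨J, hJ⟩ := lemA h hx hβ hK1 (by
    intro hh
    exact hh.2 (by show cj g 1 1 ∈ U; rw [cj_one]; exact U.one_mem))
  have hstep : ∀ i : ℕ, J ≤ i → ∀ r : G, r ∈ rist ρ β → cj g (i : ℤ) r ∈ U →
      cj g ((i + 1 : ℕ) : ℤ) r ∈ U := by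
    intro i hi r hr hrU
    by_contra hcon
    refine hJ i hi (cj g (i : ℤ) r) ⟨hrU, ?_⟩ (rist_cj ρ hr)
    show ¬ cj g 1 (cj g (i : ℤ) r) ∈ U
    rw [cj_cj]
    have e : (1 : ℤ) + (i : ℤ) = ((i + 1 : ℕ) : ℤ) := by push_cast; ring
    rwa [e]
  refine ⟨cj g (J : ℤ) ⁻¹' (U : Set G), ?_, ?_⟩
  · apply (hUo.preimage (continuous_cj g _)).mem_nhds
    show cj g (J : ℤ) 1 ∈ U
    rw [cj_one]; exact U.one_mem
  · intro r hrU hr
    have hall : ∀ i : ℕ, J ≤ i → cj g (i : ℤ) r ∈ U := by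
      intro i hi
      induction i, hi using Nat.le_induction with
      | base => exact hrU
      | succ i hi ih => exact hstep i hi r hr ih
    rw [mem_con]
    intro V hV
    obtain ⟨O, hOV, hO, h1O⟩ := mem_nhds_iff.1 hV
    have hK2 : IsCompact ((U : Set G) \ O) := hUc.diff hO
    obtain ⟨J', hJ'⟩ := lemA h hx hβ hK2 (fun hh => hh.2 h1O)
    show ∀ᶠ n : ℕ in atTop, cj g (n : ℤ) r ∈ V
    filter_upwards [eventually_ge_atTop (max J J')] with i hi
    by_contra hcon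
    exact hJ' i (le_trans (le_max_right _ _) hi) (cj g (i : ℤ) r)
      ⟨hall i (le_trans (le_max_left _ _) hi), fun hh => hcon (hOV hh)⟩ (rist_cj ρ hr)

/-- The group `C_β`: the elements of the contraction group in the rigid stabilizer of `β`. -/
def cb (ρ : G →* (A ≃o A)) (g : G) (β : A) : Subgroup G := rist ρ β ⊓ conS g

theorem mem_cb {g y : G} {β : A} : y ∈ cb ρ g β ↔ y ∈ rist ρ β ∧ y ∈ con g := Iff.rfl

/-- the elements displaced by the contraction group -/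
def E (ρ : G →* (A ≃o A)) (g : G) : Set A := {β | ∃ x ∈ con g, Disp ρ x β}

theorem E_ne_bot {g : G} {β : A} (hβ : β ∈ E ρ g) : β ≠ ⊥ := by
  obtain ⟨x, _, hx⟩ := hβ
  exact hx.1

theorem E_mono {g : G} {β γ : A} (hβ : β ∈ E ρ g) (h : γ ≤ β) (h0 : γ ≠ ⊥) : γ ∈ E ρ g := by
  obtain ⟨x, hx, hd⟩ := hβ
  exact ⟨x, hx, disp_mono ρ hd h h0⟩

theorem E_conj {g : G} {β : A} (hβ : β ∈ E ρ g) (n : ℤ) : ρ (g ^ n) β ∈ E ρ g := by
  obtain ⟨x, hx, hd⟩ := hβ
  exact ⟨cj g n x, con_cj hx n, disp_conj ρ hd⟩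

/-- `C_β` is not discrete. -/
theorem cb_nondiscrete [LocallyCompactSpace G] [T2Space G] [TotallyDisconnectedSpace G]
    (h : WeaklyDecomposable ρ) {g : G} {β : A} (hβ : β ∈ E ρ g) {V : Set G}
    (hV : V ∈ 𝓝 (1 : G)) : ∃ r ∈ cb ρ g β, r ∈ V ∧ r ≠ 1 := by
  obtain ⟨x, hx, hd⟩ := hβ
  obtain ⟨V', hV', hVr⟩ := rist_near h hx hd
  by_contra hcon
  push Not at hcon
  apply h.not_discrete β hd.1
  have hO : IsOpen ({1} : Set (rist ρ β)) := by
    rw [isOpen_iff_mem_nhds]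
    rintro _ rfl
    rw [nhds_subtype, mem_comap]
    refine ⟨V ∩ V', inter_mem hV hV', ?_⟩
    rintro ⟨y, hy⟩ ⟨hy1, hy2⟩
    have := hcon y ⟨hy, hVr y hy2 hy⟩ hy1
    exact Subtype.ext this
  exact discreteTopology_of_isOpen_singleton_one hO

end Rist

end Pool.TDLC
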